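import Pool.Agent.SymShift.Disc

/-!
# The adjoint, and the spectrum in the case of a non-zero sum of the exponents
-/

namespace Pool.Agent.SymShift

open scoped ENNReal InnerProductSpace
open Filter Topology

variable {n : ℕ}

lemma continuous_coord (x : Fin n → ℕ) : Continuous fun v : H n => v x := by
  have h := (lp.uniformContinuous_coe (E := fun _ : Fin n → ℕ => ℂ) (p := 2)).continuous
  exact (continuous_apply x).comp h

lemma isClosed_chiSpace (χ : Equiv.Perm (Fin n) →* ℤˣ) :
    IsClosed ((chiSpace χ : Submodule ℂ (H n)) : Set (H n)) := by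
  have h : ((chiSpace χ : Submodule ℂ (H n)) : Set (H n)) =
      ⋂ (π : Equiv.Perm (Fin n)) (x : Fin n → ℕ), {v : H n | v (x ∘ π) = ((χ π : ℤ) : ℂ) * v x} := by
    ext v
    simp only [Set.mem_iInter, Set.mem_ofPred_eq]
    rfl
  rw [h]
  refine isClosed_iInter fun π => isClosed_iInter fun x => ?_
  exact isClosed_eq (continuous_coord _) (continuous_const.mul (continuous_coord _))

instance (χ : Equiv.Perm (Fin n) →* ℤˣ) : CompleteSpace (chiSpace χ : Submodule ℂ (H n)) :=
  (isClosed_chiSpace χ).completeSpace_coe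

/-- Translation by `-k`. -/
def tau (k : Fin n → ℤ) (x : Fin n → ℕ) : Fin n → ℕ := fun i => ((x i : ℤ) - k i).toNat

lemma tau_spec {k : Fin n → ℤ} {x : Fin n → ℕ} (h : ∀ i, k i ≤ x i) :
    (∀ i, (-k) i ≤ tau k x i) ∧ tau (-k) (tau k x) = x := by
  constructor
  · intro i
    have := h i
    unfold tau
    simp only [Pi.neg_apply]
    omega
  · funext i
    have := h i
    unfold tau
    simp only [Pi.neg_apply]
    omega

lemma shiftFun_tau (k : Fin n → ℤ) (v : (Fin n → ℕ) → ℂ) (x : Fin n → ℕ) :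
    shiftFun k v x = if ∀ i, k i ≤ x i then v (tau k x) else 0 := rfl

lemma inner_shiftOp (k : Fin n → ℤ) (u v : H n) :
    ⟪shiftOp k u, v⟫_ℂ = ⟪u, shiftOp (-k) v⟫_ℂ := by
  rw [lp.inner_eq_tsum, lp.inner_eq_tsum]
  have hsupp : ∀ y : Function.support fun y => ⟪u y, shiftOp (-k) v y⟫_ℂ,
      ∀ i, (-k) i ≤ (y : Fin n → ℕ) i := by
    intro y
    by_contra hcon
    apply y.2
    simp only [shiftOp_apply, shiftFun_tau]
    rw [if_neg hcon, inner_zero_right]
  refine tsum_eq_tsum_of_ne_zero_bij (fun y => tau (-k) (y : Fin n → ℕ)) ?_ ?_ ?_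
  · intro y y' hyy
    have h1 := (tau_spec (hsupp y)).2
    have h2 := (tau_spec (hsupp y')).2
    apply Subtype.ext
    rw [← h1, ← h2]
    simp only at hyy
    rw [hyy]
  · intro x hx
    have hx1 : ∀ i, k i ≤ x i := by
      by_contra hcon
      apply hx
      simp only [shiftOp_apply, shiftFun_tau]
      rw [if_neg hcon, inner_zero_left]
    have h1 := tau_spec hx1
    refine ⟨⟨tau k x, ?_⟩, h1.2⟩
    rw [Function.mem_support]
    simp only [shiftOp_apply, shiftFun_tau]
    rw [if_pos h1.1, h1.2]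
    rw [Function.mem_support] at hx
    simp only [shiftOp_apply, shiftFun_tau] at hx
    rwa [if_pos hx1] at hx
  · intro y
    have h1 := tau_spec (hsupp y)
    rw [neg_neg] at h1
    simp only [shiftOp_apply, shiftFun_tau]
    rw [if_pos h1.1, if_pos (hsupp y), h1.2]

lemma inner_avgOp (k : Fin n → ℤ) (u v : H n) : ⟪avgOp k u, v⟫_ℂ = ⟪u, avgOp (-k) v⟫_ℂ := by
  unfold avgOp
  rw [smul_apply, smul_apply, sum_apply, sum_apply, inner_smul_left, inner_smul_right, sum_inner,
    inner_sum]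
  congr 1
  · rw [map_inv₀, Complex.conj_natCast]
  · refine Finset.sum_congr rfl fun π _ => ?_
    exact inner_shiftOp (k ∘ π) u v

lemma adjoint_chiOp (χ : Equiv.Perm (Fin n) →* ℤˣ) (k : Fin n → ℤ) :
    star (chiOp χ k) = chiOp χ (-k) := by
  rw [ContinuousLinearMap.star_eq_adjoint]
  symm
  rw [ContinuousLinearMap.eq_adjoint_iff]
  intro u v
  have h := inner_avgOp (-k) (u : H n) (v : H n)
  rw [neg_neg] at h
  exact h

section abstract

variable {E : Type*} [NormedAddCommGroup E] [InnerProductSpace ℂ E] [CompleteSpace E]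

lemma star_mem (T : E →L[ℂ] E) {l : ℂ} (h : star l ∈ spectrum ℂ (star T)) : l ∈ spectrum ℂ T := by
  by_contra hcon
  rw [spectrum.notMem_iff] at hcon
  have h1 := hcon.star
  rw [star_sub, ← algebraMap_star_comm] at h1
  exact spectrum.notMem_iff.2 h1 h

lemma disc_of_punctured (T : E →L[ℂ] E) (hT : ‖T‖ ≤ 1)
    (h : ∀ l : ℂ, l ≠ 0 → ‖l‖ < 1 → l ∈ spectrum ℂ T) :
    spectrum ℂ T = Metric.closedBall 0 1 := by
  apply Set.Subset.antisymm
  · intro l hl
    rw [mem_closedBall_zero_iff]
    have h1 := spectrum.norm_le_norm_mul_of_mem hl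
    have h2 : ‖(1 : E →L[ℂ] E)‖ ≤ 1 := ContinuousLinearMap.norm_id_le
    calc ‖l‖ ≤ ‖T‖ * ‖(1 : E →L[ℂ] E)‖ := h1
      _ ≤ 1 * 1 := by gcongr
      _ = 1 := one_mul _
  · have hcl : IsClosed (spectrum ℂ T) := spectrum.isClosed _
    have h0 : (0 : ℂ) ∈ spectrum ℂ T := by
      by_contra hcon
      obtain ⟨ε, hε, hb⟩ := Metric.isOpen_iff.1 hcl.isOpen_compl 0 hcon
      have h1 : ((min (ε / 2) (1 / 2) : ℝ) : ℂ) ∈ Metric.ball (0 : ℂ) ε := by
        rw [mem_ball_zero_iff, Complex.norm_real, Real.norm_of_nonneg (by positivity)]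
        exact lt_of_le_of_lt (min_le_left _ _) (by linarith)
      refine hb h1 (h _ ?_ ?_)
      · have : (0 : ℝ) < min (ε / 2) (1 / 2) := by positivity
        exact_mod_cast this.ne'
      · rw [Complex.norm_real, Real.norm_of_nonneg (by positivity)]
        exact lt_of_le_of_lt (min_le_right _ _) (by norm_num)
    have h2 : Metric.ball (0 : ℂ) 1 ⊆ spectrum ℂ T := by
      intro l hl
      rw [mem_ball_zero_iff] at hl
      by_cases h3 : l = 0
      · rw [h3]; exact h0
      · exact h l h3 hl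
    rw [← closure_ball (0 : ℂ) one_ne_zero]
    exact closure_minimal h2 hcl

end abstract

/-- Points of the open disc without the centre belong to the spectrum. -/
lemma mem_spectrum_of_ne (χ : Equiv.Perm (Fin n) →* ℤˣ) (k : Fin n → ℤ) (hs : ∑ i, k i ≠ 0)
    {l : ℂ} (h0 : l ≠ 0) (h1 : ‖l‖ < 1) : l ∈ spectrum ℂ (chiOp χ k) := by
  rcases lt_or_gt_of_ne hs with h | h
  · exact mem_spectrum_of_neg χ k h h0 h1
  · have h2 : ∑ i, (-k) i < 0 := by
      simp only [Pi.neg_apply, Finset.sum_neg_distrib]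
      linarith
    have h3 := mem_spectrum_of_neg χ (-k) h2 (l := star l) (by simpa using h0) (by simpa using h1)
    rw [← adjoint_chiOp] at h3
    exact star_mem _ h3

/-- If the sum of the exponents is not zero, then the spectrum is the closed unit disc. -/
theorem spectrum_disc (χ : Equiv.Perm (Fin n) →* ℤˣ) (k : Fin n → ℤ) (hs : ∑ i, k i ≠ 0) :
    spectrum ℂ (chiOp χ k) = Metric.closedBall 0 1 :=
  disc_of_punctured _ (norm_chiOp_le χ k) fun _ h0 h1 => mem_spectrum_of_ne χ k hs h0 h1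

end Pool.Agent.SymShift
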