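import Pool.Agent.SymShift.Defs

/-!
# Approximate eigenvectors of the symmetrized tensor products of shifts
-/

namespace Pool.Agent.SymShift

open scoped ENNReal InnerProductSpace
open Filter Topology

variable {n : ℕ}

lemma norm_sq_of_support (v : H n) (s : Finset (Fin n → ℕ)) (h : ∀ x ∉ s, v x = 0) :
    ‖v‖ ^ 2 = ∑ x ∈ s, ‖v x‖ ^ 2 := by
  have h1 := lp.norm_rpow_eq_tsum (p := 2) (by simp) v
  simp only [ENNReal.toReal_ofNat, Real.rpow_ofNat] at h1
  rw [h1, tsum_eq_sum]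
  intro x hx
  rw [h x hx]
  simp

lemma sum_sq_le (v : H n) (s : Finset (Fin n → ℕ)) : ∑ x ∈ s, ‖v x‖ ^ 2 ≤ ‖v‖ ^ 2 := by
  have h1 := lp.sum_rpow_le_norm_rpow (p := 2) (by simp) v s
  simpa only [ENNReal.toReal_ofNat, Real.rpow_ofNat] using h1

lemma inner_of_support (u v : H n) (s : Finset (Fin n → ℕ)) (h : ∀ x ∉ s, v x = 0) :
    ⟪u, v⟫_ℂ = ∑ x ∈ s, (starRingEnd ℂ) (u x) * v x := by
  rw [lp.inner_eq_tsum, tsum_eq_sum (s := s)]
  · refine Finset.sum_congr rfl fun x _ => ?_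
    rw [RCLike.inner_apply, mul_comm]
  · intro x hx
    rw [h x hx]
    simp

/-- The box with corner `a` and side `N`. -/
def box (a : Fin n → ℕ) (N : ℕ) : Finset (Fin n → ℕ) :=
  Fintype.piFinset fun i => Finset.Ico (a i) (a i + N)

lemma mem_box {a : Fin n → ℕ} {N : ℕ} {x : Fin n → ℕ} :
    x ∈ box a N ↔ ∀ i, a i ≤ x i ∧ x i < a i + N := by
  simp [box, Fintype.mem_piFinset, Finset.mem_Ico]

lemma card_box (a : Fin n → ℕ) (N : ℕ) : (box a N).card = N ^ n := by
  simp [box]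

open Classical in
/-- The character `z` on a box. -/
noncomputable def wave (z : Fin n → ℂ) (a : Fin n → ℕ) (N : ℕ) : H n :=
  ∑ y ∈ box a N, lp.single 2 y (∏ i, z i ^ y i)

open Classical in
lemma wave_apply (z : Fin n → ℂ) (a : Fin n → ℕ) (N : ℕ) (x : Fin n → ℕ) :
    wave z a N x = if x ∈ box a N then ∏ i, z i ^ x i else 0 := by
  unfold wave
  rw [lp.coeFn_sum, Finset.sum_apply]
  split_ifs with h
  · rw [Finset.sum_eq_single x]
    · simp [lp.single_apply]
    · intro y _ hyx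
      rw [lp.single_apply_ne _ _ _ (Ne.symm hyx)]
    · intro h'; exact absurd h h'
  · refine Finset.sum_eq_zero fun y hy => ?_
    rw [lp.single_apply_ne]
    rintro rfl
    exact h hy

lemma norm_prod_pow {z : Fin n → ℂ} (hz : ∀ i, ‖z i‖ = 1) (x : Fin n → ℕ) :
    ‖∏ i, z i ^ x i‖ = 1 := by
  rw [norm_prod]
  exact Finset.prod_eq_one fun i _ => by rw [norm_pow, hz i, one_pow]

lemma norm_wave {z : Fin n → ℂ} (hz : ∀ i, ‖z i‖ = 1) (a : Fin n → ℕ) (N : ℕ) :
    ‖wave z a N‖ ^ 2 = (N : ℝ) ^ n := by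
  classical
  rw [norm_sq_of_support _ (box a N)]
  · rw [Finset.sum_congr rfl (g := fun _ => (1 : ℝ))]
    · simp [card_box]
    · intro x hx
      rw [wave_apply, if_pos hx, norm_prod_pow hz, one_pow]
  · intro x hx
    rw [wave_apply, if_neg hx]

/-- The value of the symbol of `B (k 0) ⊗ ⋯ ⊗ B (k (n - 1))`. -/
noncomputable def mono (z : Fin n → ℂ) (k : Fin n → ℤ) : ℂ := ∏ i, z i ^ (-k i)

lemma norm_mono {z : Fin n → ℂ} (hz : ∀ i, ‖z i‖ = 1) (k : Fin n → ℤ) : ‖mono z k‖ = 1 := by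
  unfold mono
  rw [norm_prod]
  exact Finset.prod_eq_one fun i _ => by rw [norm_zpow, hz i, one_zpow]

/-- The points of the box whose translate by `-k` is also in the box. -/
def boxE (k : Fin n → ℤ) (a : Fin n → ℕ) (N : ℕ) : Finset (Fin n → ℕ) :=
  Fintype.piFinset fun i => (Finset.Ico (a i) (a i + N)).filter
    fun t : ℕ => (a i : ℤ) ≤ (t : ℤ) - k i ∧ (t : ℤ) - k i < a i + N

lemma card_one (a N : ℕ) (k : ℤ) :
    (N : ℝ) - |(k : ℝ)| ≤ ((Finset.Ico a (a + N)).filter
      fun t : ℕ => (a : ℤ) ≤ (t : ℤ) - k ∧ (t : ℤ) - k < a + N).card := by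
  have h1 : Finset.Ico (a + k.toNat) (a + N - (-k).toNat) ⊆ (Finset.Ico a (a + N)).filter
      fun t : ℕ => (a : ℤ) ≤ (t : ℤ) - k ∧ (t : ℤ) - k < a + N := by
    intro t ht
    rw [Finset.mem_Ico] at ht
    rw [Finset.mem_filter, Finset.mem_Ico]
    omega
  have h2 := Finset.card_le_card h1
  rw [Nat.card_Ico] at h2
  have h3 : (N : ℤ) - |k| ≤ ((Finset.Ico a (a + N)).filter
      fun t : ℕ => (a : ℤ) ≤ (t : ℤ) - k ∧ (t : ℤ) - k < a + N).card := by
    have : (N : ℤ) - |k| ≤ ((a + N - (-k).toNat - (a + k.toNat) : ℕ) : ℤ) := by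
      rcases abs_cases k with ⟨h, _⟩ | ⟨h, _⟩ <;> omega
    exact this.trans (by exact_mod_cast h2)
  exact_mod_cast h3

/-- The relative size of `boxE`, at least. -/
noncomputable def rho (k : Fin n → ℤ) (N : ℕ) : ℝ := ∏ i, (1 - |(k i : ℝ)| / N)

lemma rho_tendsto (k : Fin n → ℤ) : Tendsto (fun N => rho k N) atTop (𝓝 1) := by
  have h : Tendsto (fun N : ℕ => ∏ i, (1 - |(k i : ℝ)| / N)) atTop (𝓝 (∏ _i : Fin n, (1 - 0))) := by
    refine tendsto_finsetProd _ fun i _ => ?_
    exact tendsto_const_nhds.sub (tendsto_const_div_atTop_nhds_zero_nat _)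
  unfold rho
  simpa using h

lemma card_boxE {k : Fin n → ℤ} (a : Fin n → ℕ) {N : ℕ} (hN : 0 < N)
    (hk : ∀ i, |(k i : ℝ)| ≤ N) : (N : ℝ) ^ n * rho k N ≤ (boxE k a N).card := by
  have hN' : (0 : ℝ) < N := by exact_mod_cast hN
  unfold boxE rho
  rw [Fintype.card_piFinset, Nat.cast_prod]
  have h1 : (N : ℝ) ^ n * ∏ i, (1 - |(k i : ℝ)| / N) = ∏ i : Fin n, ((N : ℝ) - |(k i : ℝ)|) := by
    have : (N : ℝ) ^ n = ∏ _i : Fin n, (N : ℝ) := by simp
    rw [this, ← Finset.prod_mul_distrib]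
    refine Finset.prod_congr rfl fun i _ => ?_
    field_simp
  rw [h1]
  refine Finset.prod_le_prod (fun i _ => by have := hk i; linarith) fun i _ => ?_
  exact card_one (a i) N (k i)

lemma mono_mul {z : Fin n → ℂ} (hz : ∀ i, ‖z i‖ = 1) (k : Fin n → ℤ) (x y : Fin n → ℕ)
    (h : ∀ i, (y i : ℤ) = x i - k i) :
    (starRingEnd ℂ) (∏ i, z i ^ y i) * (mono z k * ∏ i, z i ^ x i) = 1 := by
  unfold mono
  rw [map_prod, ← Finset.prod_mul_distrib, ← Finset.prod_mul_distrib]
  refine Finset.prod_eq_one fun i _ => ?_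
  have hz0 : z i ≠ 0 := by
    intro h0
    have := hz i
    rw [h0, norm_zero] at this
    exact zero_ne_one this
  have hc : (starRingEnd ℂ) (z i) = (z i)⁻¹ := by
    rw [Complex.inv_def, Complex.normSq_eq_norm_sq, hz i]
    simp
  rw [map_pow, hc, ← zpow_natCast, ← zpow_natCast, inv_zpow', ← zpow_add₀ hz0, ← zpow_add₀ hz0,
    h i]
  have : -((x i : ℤ) - k i) + (-k i + x i) = 0 := by ring
  rw [this, zpow_zero]

lemma shift_wave {z : Fin n → ℂ} (hz : ∀ i, ‖z i‖ = 1) (k : Fin n → ℤ) (a : Fin n → ℕ) {N : ℕ}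
    (hN : 0 < N) (hk : ∀ i, |(k i : ℝ)| ≤ N) :
    ‖shiftOp k (wave z a N) - mono z k • wave z a N‖ ^ 2 ≤ (N : ℝ) ^ n * (2 * (1 - rho k N)) := by
  classical
  have h0 : ‖shiftOp k (wave z a N)‖ ^ 2 ≤ (N : ℝ) ^ n := by
    rw [← norm_wave hz a N]
    have h1 : ‖shiftOp k (wave z a N)‖ ≤ ‖wave z a N‖ := by
      have h2 := (shiftOp k).le_opNorm (wave z a N)
      have h3 : ‖shiftOp k‖ ≤ 1 := LinearMap.mkContinuous_norm_le _ zero_le_one _
      calc _ ≤ ‖shiftOp k‖ * ‖wave z a N‖ := h2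
        _ ≤ 1 * ‖wave z a N‖ := by gcongr
        _ = _ := one_mul _
    gcongr
  have h4 : ‖mono z k • wave z a N‖ ^ 2 = (N : ℝ) ^ n := by
    rw [norm_smul, norm_mono hz, one_mul, norm_wave hz]
  have h5 : ((boxE k a N).card : ℝ) ≤
      RCLike.re ⟪shiftOp k (wave z a N), mono z k • wave z a N⟫_ℂ := by
    rw [inner_of_support _ _ (box a N)]
    · have h6 : ∀ x ∈ box a N, (starRingEnd ℂ) (shiftOp k (wave z a N) x) *
          ((mono z k • wave z a N : H n) x) = if x ∈ boxE k a N then 1 else 0 := by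
        intro x hx
        rw [lp.coeFn_smul, Pi.smul_apply, smul_eq_mul, wave_apply, if_pos hx, shiftOp_apply]
        unfold shiftFun
        have hx' := mem_box.1 hx
        by_cases hE : x ∈ boxE k a N
        · rw [if_pos hE]
          have hE' := Fintype.mem_piFinset.1 hE
          simp only [Finset.mem_filter, Finset.mem_Ico] at hE'
          have hle : ∀ i, k i ≤ x i := by
            intro i
            have := hE' i
            omega
          rw [if_pos hle, wave_apply, if_pos]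
          · refine mono_mul hz k x _ ?_
            intro i
            have := hle i
            omega
          · rw [mem_box]
            intro i
            have := hE' i
            omega
        · rw [if_neg hE]
          by_cases hle : ∀ i, k i ≤ x i
          · rw [if_pos hle, wave_apply, if_neg]
            · simp
            · intro hcon
              apply hE
              rw [mem_box] at hcon
              unfold boxE
              rw [Fintype.mem_piFinset]
              intro i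
              have h7 := hcon i
              have h8 := hle i
              have h9 := hx' i
              simp only [Finset.mem_filter, Finset.mem_Ico]
              omega
          · rw [if_neg hle]
            simp
      rw [Finset.sum_congr rfl h6, Finset.sum_ite_mem]
      have h7 : box a N ∩ boxE k a N = boxE k a N := by
        rw [Finset.inter_eq_right]
        intro x hx
        have hE' := Fintype.mem_piFinset.1 hx
        simp only [Finset.mem_filter, Finset.mem_Ico] at hE'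
        rw [mem_box]
        intro i
        exact (hE' i).1
      rw [h7]
      simp
    · intro x hx
      rw [lp.coeFn_smul, Pi.smul_apply, wave_apply, if_neg hx, smul_zero]
  have h6 := norm_sub_sq (𝕜 := ℂ) (shiftOp k (wave z a N)) (mono z k • wave z a N)
  have h7 := card_boxE a hN hk
  rw [h6, h4]
  nlinarith [h0, h5, h7]

lemma symbol_perm (k : Fin n → ℤ) (z : Fin n → ℂ) (σ : Equiv.Perm (Fin n)) :
    symbol k (z ∘ σ) = symbol k z := by
  unfold symbol
  congr 1
  rw [← Equiv.sum_comp (Equiv.mulRight σ)]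
  refine Finset.sum_congr rfl fun π _ => ?_
  exact Equiv.prod_comp σ (fun i => z i ^ (-k (π i)))

lemma avg_wave {z : Fin n → ℂ} (hz : ∀ i, ‖z i‖ = 1) (k : Fin n → ℤ) (a : Fin n → ℕ) {N : ℕ}
    (hN : 0 < N) (hk : ∀ i, |(k i : ℝ)| ≤ N) :
    ‖avgOp k (wave z a N) - symbol k z • wave z a N‖ ≤
      √((N : ℝ) ^ n * (2 * (1 - rho k N))) := by
  have h1 : avgOp k (wave z a N) - symbol k z • wave z a N = (n.factorial : ℂ)⁻¹ •
      ∑ π : Equiv.Perm (Fin n), (shiftOp (k ∘ π) (wave z a N) - mono z (k ∘ π) • wave z a N) := by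
    unfold avgOp symbol mono
    rw [smul_apply, sum_apply, Finset.sum_sub_distrib, smul_sub, ← Finset.sum_smul, smul_smul]
    rfl
  rw [h1, norm_smul, norm_inv, Complex.norm_natCast]
  have hf : (0 : ℝ) < n.factorial := by exact_mod_cast n.factorial_pos
  rw [inv_mul_le_iff₀ hf]
  refine (norm_sum_le _ _).trans ?_
  have h2 : ∀ π ∈ (Finset.univ : Finset (Equiv.Perm (Fin n))),
      ‖shiftOp (k ∘ π) (wave z a N) - mono z (k ∘ π) • wave z a N‖ ≤
        √((N : ℝ) ^ n * (2 * (1 - rho k N))) := by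
    intro π _
    apply Real.le_sqrt_of_sq_le
    have h3 := shift_wave hz (k ∘ π) a hN (fun i => hk (π i))
    have h4 : rho (k ∘ π) N = rho k N := by
      unfold rho
      exact Equiv.prod_comp π (fun i => (1 - |(k i : ℝ)| / N))
    rwa [h4] at h3
  refine (Finset.sum_le_sum h2).trans ?_
  rw [Finset.sum_const, Finset.card_univ, Fintype.card_perm, Fintype.card_fin, nsmul_eq_mul]

/-- The (anti)symmetrized waves. -/
noncomputable def vec (χ : Equiv.Perm (Fin n) →* ℤˣ) (z : Fin n → ℂ) (N : ℕ) : H n :=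
  ∑ π : Equiv.Perm (Fin n), ((χ π : ℤ) : ℂ) • wave (z ∘ π) (fun i => (π i : ℕ) * N) N

lemma vec_apply (χ : Equiv.Perm (Fin n) →* ℤˣ) (z : Fin n → ℂ) (N : ℕ) (x : Fin n → ℕ) :
    vec χ z N x = ∑ π : Equiv.Perm (Fin n), ((χ π : ℤ) : ℂ) *
      wave (z ∘ π) (fun i => (π i : ℕ) * N) N x := by
  unfold vec
  rw [lp.coeFn_sum, Finset.sum_apply]
  rfl

lemma vec_mem (χ : Equiv.Perm (Fin n) →* ℤˣ) (z : Fin n → ℂ) (N : ℕ) : vec χ z N ∈ chiSpace χ := by
  classical
  intro σ x
  rw [vec_apply, vec_apply, ← Equiv.sum_comp (Equiv.mulRight σ), Finset.mul_sum]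
  refine Finset.sum_congr rfl fun π _ => ?_
  rw [← mul_assoc]
  have h1 : ((χ ((Equiv.mulRight σ) π) : ℤ) : ℂ) = ((χ σ : ℤ) : ℂ) * ((χ π : ℤ) : ℂ) := by
    show ((χ (π * σ) : ℤ) : ℂ) = _
    rw [map_mul]
    push_cast
    ring
  rw [h1]
  congr 1
  rw [wave_apply, wave_apply]
  have h2 : x ∘ σ ∈ box (fun i => (((Equiv.mulRight σ) π) i : ℕ) * N) N ↔
      x ∈ box (fun i => (π i : ℕ) * N) N := by
    rw [mem_box, mem_box]
    constructor
    · intro h i
      have := h (σ⁻¹ i)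
      simpa using this
    · intro h i
      exact h (σ i)
  by_cases h : x ∈ box (fun i => (π i : ℕ) * N) N
  · rw [if_pos h, if_pos (h2.2 h)]
    exact Equiv.prod_comp σ (fun i => (z ∘ π) i ^ x i)
  · rw [if_neg h, if_neg (fun h' => h (h2.1 h'))]

lemma vec_norm (χ : Equiv.Perm (Fin n) →* ℤˣ) {z : Fin n → ℂ} (hz : ∀ i, ‖z i‖ = 1) (N : ℕ) :
    (N : ℝ) ^ n ≤ ‖vec χ z N‖ ^ 2 := by
  classical
  refine le_trans ?_ (sum_sq_le (vec χ z N) (box (fun i => (i : ℕ) * N) N))
  have h1 : ∀ x ∈ box (fun i : Fin n => (i : ℕ) * N) N, ‖vec χ z N x‖ ^ 2 = 1 := by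
    intro x hx
    rw [vec_apply, Finset.sum_eq_single 1]
    · rw [wave_apply, if_pos (by simpa using hx), norm_mul,
        norm_prod_pow (z := z ∘ (1 : Equiv.Perm (Fin n))) (fun i => hz _)]
      simp
    · intro π _ hπ
      rw [wave_apply, if_neg, mul_zero]
      intro hx'
      apply hπ
      rw [mem_box] at hx hx'
      ext i
      have h2 := hx i
      have h3 := hx' i
      simp only [Equiv.Perm.coe_one, id_eq]
      by_contra hne
      rcases Nat.lt_or_gt_of_ne hne with h4 | h4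
      · have : ((π i : ℕ) + 1) * N ≤ (i : ℕ) * N := Nat.mul_le_mul_right N h4
        nlinarith
      · have : ((i : ℕ) + 1) * N ≤ (π i : ℕ) * N := Nat.mul_le_mul_right N h4
        nlinarith
    · intro h; exact absurd (Finset.mem_univ _) h
  rw [Finset.sum_congr rfl h1]
  simp [card_box]

lemma avg_vec (χ : Equiv.Perm (Fin n) →* ℤˣ) {z : Fin n → ℂ} (hz : ∀ i, ‖z i‖ = 1)
    (k : Fin n → ℤ) {N : ℕ} (hN : 0 < N) (hk : ∀ i, |(k i : ℝ)| ≤ N) :
    ‖avgOp k (vec χ z N) - symbol k z • vec χ z N‖ ≤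
      (n.factorial * √(2 * (1 - rho k N))) * ‖vec χ z N‖ := by
  have h1 : avgOp k (vec χ z N) - symbol k z • vec χ z N = ∑ π : Equiv.Perm (Fin n),
      ((χ π : ℤ) : ℂ) • (avgOp k (wave (z ∘ π) (fun i => (π i : ℕ) * N) N) -
        symbol k (z ∘ π) • wave (z ∘ π) (fun i => (π i : ℕ) * N) N) := by
    unfold vec
    rw [map_sum, Finset.smul_sum, ← Finset.sum_sub_distrib]
    refine Finset.sum_congr rfl fun π _ => ?_
    rw [symbol_perm, map_smul, smul_sub, smul_comm]
  rw [h1]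
  refine (norm_sum_le _ _).trans ?_
  have h2 : ∀ π ∈ (Finset.univ : Finset (Equiv.Perm (Fin n))),
      ‖((χ π : ℤ) : ℂ) • (avgOp k (wave (z ∘ π) (fun i => (π i : ℕ) * N) N) -
        symbol k (z ∘ π) • wave (z ∘ π) (fun i => (π i : ℕ) * N) N)‖ ≤
        √(2 * (1 - rho k N)) * ‖vec χ z N‖ := by
    intro π _
    rw [norm_smul]
    have h3 : ‖((χ π : ℤ) : ℂ)‖ = 1 := by
      rcases Int.units_eq_one_or (χ π) with h | h <;> simp [h]
    rw [h3, one_mul]
    refine (avg_wave (fun i => hz _) k _ hN hk).trans ?_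
    have h4 : √((N : ℝ) ^ n) ≤ ‖vec χ z N‖ :=
      (Real.sqrt_le_left (norm_nonneg _)).2 (vec_norm χ hz N)
    rw [Real.sqrt_mul (by positivity), mul_comm]
    gcongr
  refine (Finset.sum_le_sum h2).trans ?_
  rw [Finset.sum_const, Finset.card_univ, Fintype.card_perm, Fintype.card_fin, nsmul_eq_mul,
    mul_assoc]

/-- Approximate eigenvectors with eigenvalue `symbol k z`, of finite support. -/
theorem exists_approx (χ : Equiv.Perm (Fin n) →* ℤˣ) (k : Fin n → ℤ) {z : Fin n → ℂ}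
    (hz : ∀ i, ‖z i‖ = 1) {ε : ℝ} (hε : 0 < ε) :
    ∃ v : H n, v ∈ chiSpace χ ∧ v ≠ 0 ∧ (∃ s : Finset (Fin n → ℕ), ∀ x ∉ s, v x = 0) ∧
      ‖avgOp k v - symbol k z • v‖ ≤ ε * ‖v‖ := by
  classical
  have h1 : Tendsto (fun N : ℕ => (n.factorial : ℝ) * √(2 * (1 - rho k N))) atTop
      (𝓝 (n.factorial * √(2 * (1 - 1)))) :=
    tendsto_const_nhds.mul ((tendsto_const_nhds.mul (tendsto_const_nhds.sub
      (rho_tendsto k))).sqrt)
  rw [sub_self, mul_zero, Real.sqrt_zero, mul_zero] at h1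
  have h2 : ∀ᶠ N : ℕ in atTop, (n.factorial : ℝ) * √(2 * (1 - rho k N)) < ε :=
    h1.eventually_lt_const hε
  have h3 : ∀ᶠ N : ℕ in atTop, ∀ i, |(k i : ℝ)| ≤ N := by
    rw [eventually_all]
    intro i
    obtain ⟨M, hM⟩ := exists_nat_ge |(k i : ℝ)|
    filter_upwards [eventually_ge_atTop M] with N hN
    exact hM.trans (by exact_mod_cast hN)
  obtain ⟨N, h4, h5, h6⟩ := (h2.and (h3.and (eventually_gt_atTop 0))).exists
  refine ⟨vec χ z N, vec_mem χ z N, ?_, ?_, ?_⟩
  · intro h0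
    have := vec_norm χ hz N
    rw [h0, norm_zero] at this
    have : (0 : ℝ) < (N : ℝ) ^ n := by positivity
    linarith
  · refine ⟨Finset.univ.biUnion fun π : Equiv.Perm (Fin n) => box (fun i => (π i : ℕ) * N) N, ?_⟩
    intro x hx
    rw [vec_apply]
    refine Finset.sum_eq_zero fun π _ => ?_
    rw [wave_apply, if_neg, mul_zero]
    intro h
    exact hx (Finset.mem_biUnion.2 ⟨π, Finset.mem_univ _, h⟩)
  · refine (avg_vec χ hz k h6 h5).trans ?_
    gcongr

end Pool.Agent.SymShift
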