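import Mathlib

/-!
# Symmetrized tensor products of shifts

The Hilbert space tensor power `ℓ²(ℕ)^{⊗ n}` is realised as `ℓ²(ℕ^n)`: the vector
`e_{x 0} ⊗ ⋯ ⊗ e_{x (n - 1)}` is the basis vector with index `x : Fin n → ℕ`, and the elements are
given by their coefficients `v x`.
-/

namespace Pool.Agent.SymShift

open scoped ENNReal

/-- The `n`-th tensor power of `ℓ²(ℕ)`, realised as `ℓ²(ℕ^n)`. -/
abbrev H (n : ℕ) : Type := lp (fun _ : Fin n → ℕ => ℂ) 2

/-- For an integer `m` let `B m` be the power `S^m` of the unilateral shift if `m ≥ 0`, and the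
power `(S^*)^(-m)` of its adjoint if `m < 0`; it maps the basis vector `e_i` to `e_{i + m}`, and
to `0` if `i + m < 0`.  This is the action of `B (k 0) ⊗ ⋯ ⊗ B (k (n - 1))` on the
coefficients. -/
def shiftFun {n : ℕ} (k : Fin n → ℤ) (v : (Fin n → ℕ) → ℂ) : (Fin n → ℕ) → ℂ := fun x =>
  if ∀ i, k i ≤ x i then v (fun i => ((x i : ℤ) - k i).toNat) else 0

lemma shiftFun_sum_le {n : ℕ} (k : Fin n → ℤ) (v : H n) (s : Finset (Fin n → ℕ)) :
    ∑ x ∈ s, ‖shiftFun k v x‖ ^ (2 : ℝ≥0∞).toReal ≤ ‖v‖ ^ (2 : ℝ≥0∞).toReal := by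
  classical
  have h1 : ∑ x ∈ s, ‖shiftFun k v x‖ ^ (2 : ℝ≥0∞).toReal =
      ∑ x ∈ s.filter (fun x => ∀ i, k i ≤ x i),
        ‖v (fun i => ((x i : ℤ) - k i).toNat)‖ ^ (2 : ℝ≥0∞).toReal := by
    rw [Finset.sum_filter]
    refine Finset.sum_congr rfl fun x _ => ?_
    unfold shiftFun
    split_ifs with h
    · rfl
    · simp
  have h2 : ∑ x ∈ s.filter (fun x => ∀ i, k i ≤ x i),
        ‖v (fun i => ((x i : ℤ) - k i).toNat)‖ ^ (2 : ℝ≥0∞).toReal =
      ∑ y ∈ (s.filter (fun x => ∀ i, k i ≤ x i)).image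
        (fun x => (fun i => ((x i : ℤ) - k i).toNat : Fin n → ℕ)),
        ‖v y‖ ^ (2 : ℝ≥0∞).toReal := by
    rw [Finset.sum_image]
    intro x hx y hy hxy
    have hx' := (Finset.mem_filter.1 hx).2
    have hy' := (Finset.mem_filter.1 hy).2
    funext i
    have h3 := congrFun hxy i
    have h4 := hx' i
    have h5 := hy' i
    simp only at h3
    omega
  rw [h1, h2]
  exact lp.sum_rpow_le_norm_rpow (by simp) v _

/-- The operator `B (k 0) ⊗ ⋯ ⊗ B (k (n - 1))`. -/
noncomputable def shiftOp {n : ℕ} (k : Fin n → ℤ) : H n →L[ℂ] H n :=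
  LinearMap.mkContinuous
    { toFun := fun v => ⟨shiftFun k v, memℓp_gen' (shiftFun_sum_le k v)⟩
      map_add' := by
        intro u v
        ext x
        show shiftFun k (u + v) x = shiftFun k u x + shiftFun k v x
        unfold shiftFun
        split_ifs
        · rfl
        · simp
      map_smul' := by
        intro c v
        ext x
        show shiftFun k (c • v) x = c * shiftFun k v x
        unfold shiftFun
        split_ifs
        · rfl
        · simp } 1 (by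
      intro v
      rw [one_mul]
      exact lp.norm_le_of_forall_sum_le (by simp) (norm_nonneg v) (shiftFun_sum_le k v))

/-- The average of the operators `B (k (π 0)) ⊗ ⋯ ⊗ B (k (π (n - 1)))` over all
permutations `π`. -/
noncomputable def avgOp {n : ℕ} (k : Fin n → ℤ) : H n →L[ℂ] H n :=
  ((n.factorial : ℂ)⁻¹) • ∑ π : Equiv.Perm (Fin n), shiftOp (k ∘ π)

/-- The subspace of the vectors which are multiplied by `χ π` by every permutation `π` of the
tensor factors; it is the symmetric tensor power if `χ = 1`, and the antisymmetric tensor power if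
`χ` is the sign. -/
def chiSpace {n : ℕ} (χ : Equiv.Perm (Fin n) →* ℤˣ) : Submodule ℂ (H n) where
  carrier := {v | ∀ (π : Equiv.Perm (Fin n)) (x : Fin n → ℕ), v (x ∘ π) = ((χ π : ℤ) : ℂ) * v x}
  zero_mem' := by
    intro π x
    simp
  add_mem' := by
    intro u v hu hv π x
    simp only [lp.coeFn_add, Pi.add_apply]
    rw [hu π x, hv π x, mul_add]
  smul_mem' := by
    intro c v hv π x
    simp only [lp.coeFn_smul, Pi.smul_apply, smul_eq_mul]
    rw [hv π x]
    ring

lemma shiftOp_apply {n : ℕ} (k : Fin n → ℤ) (v : H n) (x : Fin n → ℕ) :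
    shiftOp k v x = shiftFun k v x := rfl

lemma shiftFun_perm {n : ℕ} (χ : Equiv.Perm (Fin n) →* ℤˣ) (k : Fin n → ℤ) {v : H n}
    (hv : v ∈ chiSpace χ) (π : Equiv.Perm (Fin n)) (x : Fin n → ℕ) :
    shiftFun (k ∘ π) v (x ∘ π) = ((χ π : ℤ) : ℂ) * shiftFun k v x := by
  unfold shiftFun
  have h1 : (∀ i, (k ∘ π) i ≤ ((x ∘ π) i : ℕ)) ↔ ∀ i, k i ≤ x i := by
    constructor
    · intro h i
      have := h (π⁻¹ i)
      simpa using this
    · intro h i
      exact h (π i)
  by_cases h : ∀ i, k i ≤ x i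
  · rw [if_pos (h1.2 h), if_pos h]
    exact hv π (fun i => ((x i : ℤ) - k i).toNat)
  · rw [if_neg (fun h' => h (h1.1 h')), if_neg h, mul_zero]

lemma avgOp_apply {n : ℕ} (k : Fin n → ℤ) (v : H n) (x : Fin n → ℕ) :
    avgOp k v x = (n.factorial : ℂ)⁻¹ * ∑ π : Equiv.Perm (Fin n), shiftFun (k ∘ π) v x := by
  unfold avgOp
  rw [smul_apply, lp.coeFn_smul, Pi.smul_apply, smul_eq_mul,
    sum_apply, lp.coeFn_sum, Finset.sum_apply]
  rfl

lemma avgOp_mem {n : ℕ} (χ : Equiv.Perm (Fin n) →* ℤˣ) (k : Fin n → ℤ) {v : H n}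
    (hv : v ∈ chiSpace χ) : avgOp k v ∈ chiSpace χ := by
  intro π x
  rw [avgOp_apply, avgOp_apply, ← Equiv.sum_comp (Equiv.mulRight π)]
  have h : ∀ σ : Equiv.Perm (Fin n), shiftFun (k ∘ ((Equiv.mulRight π) σ)) v (x ∘ π) =
      ((χ π : ℤ) : ℂ) * shiftFun (k ∘ σ) v x := by
    intro σ
    rw [← shiftFun_perm χ (k ∘ σ) hv π x]
    rfl
  rw [Finset.sum_congr rfl fun σ _ => h σ, ← Finset.mul_sum]
  ring

/-- The symmetrized tensor product of the shifts `B (k 0), …, B (k (n - 1))`, restricted to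
`chiSpace χ`: this is `B (k 0) ⊙ ⋯ ⊙ B (k (n - 1))` if `χ = 1`, and
`B (k 0) ∧ ⋯ ∧ B (k (n - 1))` if `χ` is the sign. -/
noncomputable def chiOp {n : ℕ} (χ : Equiv.Perm (Fin n) →* ℤˣ) (k : Fin n → ℤ) :
    chiSpace χ →L[ℂ] chiSpace χ :=
  ((avgOp k).comp (chiSpace χ).subtypeL).codRestrict (chiSpace χ)
    (fun v => avgOp_mem χ k v.2)

/-- The symbol of the symmetrized tensor product: the average of the monomials
`∏ i, z i ^ (-k (π i))` over all permutations `π`. -/
noncomputable def symbol {n : ℕ} (k : Fin n → ℤ) (z : Fin n → ℂ) : ℂ :=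
  (n.factorial : ℂ)⁻¹ * ∑ π : Equiv.Perm (Fin n), ∏ i, z i ^ (-k (π i))

/-- The set of the values of the symbol at the points all of whose coordinates have absolute
value one. -/
def symbolRange {n : ℕ} (k : Fin n → ℤ) : Set ℂ :=
  {c | ∃ z : Fin n → ℂ, (∀ i, ‖z i‖ = 1) ∧ c = symbol k z}

end Pool.Agent.SymShift
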