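import Pool.Agent.SymShift.Approx

/-!
# Norm and spectrum of the symmetrized tensor products of shifts
-/

namespace Pool.Agent.SymShift

open scoped ENNReal InnerProductSpace
open Filter Topology

variable {n : ℕ}

lemma norm_shiftOp_le (k : Fin n → ℤ) : ‖shiftOp k‖ ≤ 1 :=
  LinearMap.mkContinuous_norm_le _ zero_le_one _

lemma norm_avgOp_le (k : Fin n → ℤ) : ‖avgOp k‖ ≤ 1 := by
  unfold avgOp
  have hf : (0 : ℝ) < n.factorial := by exact_mod_cast n.factorial_pos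
  rw [norm_smul, norm_inv, Complex.norm_natCast, inv_mul_le_iff₀ hf, mul_one]
  refine (norm_sum_le _ _).trans ?_
  have h : ∀ π ∈ (Finset.univ : Finset (Equiv.Perm (Fin n))), ‖shiftOp (k ∘ π)‖ ≤ 1 :=
    fun π _ => norm_shiftOp_le (k ∘ π)
  refine (Finset.sum_le_sum h).trans ?_
  rw [Finset.sum_const, Finset.card_univ, Fintype.card_perm, Fintype.card_fin, nsmul_eq_mul,
    mul_one]

lemma chiOp_coe (χ : Equiv.Perm (Fin n) →* ℤˣ) (k : Fin n → ℤ) (v : chiSpace χ) :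
    ((chiOp χ k v : chiSpace χ) : H n) = avgOp k v := rfl

lemma norm_chiOp_le (χ : Equiv.Perm (Fin n) →* ℤˣ) (k : Fin n → ℤ) : ‖chiOp χ k‖ ≤ 1 := by
  refine ContinuousLinearMap.opNorm_le_bound _ zero_le_one fun v => ?_
  have h1 := (avgOp k).le_opNorm (v : H n)
  have h2 := norm_avgOp_le k
  calc ‖chiOp χ k v‖ = ‖avgOp k (v : H n)‖ := rfl
    _ ≤ ‖avgOp k‖ * ‖(v : H n)‖ := h1
    _ ≤ 1 * ‖(v : H n)‖ := by gcongr
    _ = 1 * ‖v‖ := rfl

/-- Finite support. -/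
def FinSupp (v : H n) : Prop := ∃ s : Finset (Fin n → ℕ), ∀ x ∉ s, v x = 0

lemma exists_approx' (χ : Equiv.Perm (Fin n) →* ℤˣ) (k : Fin n → ℤ) {z : Fin n → ℂ}
    (hz : ∀ i, ‖z i‖ = 1) {ε : ℝ} (hε : 0 < ε) :
    ∃ v : chiSpace χ, v ≠ 0 ∧ FinSupp (v : H n) ∧
      ‖chiOp χ k v - symbol k z • v‖ ≤ ε * ‖v‖ := by
  obtain ⟨v, h1, h2, h3, h4⟩ := exists_approx χ k hz hε
  exact ⟨⟨v, h1⟩, fun h => h2 (congrArg Subtype.val h), h3, h4⟩

lemma symbol_one (k : Fin n → ℤ) : symbol k (fun _ => 1) = 1 := by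
  unfold symbol
  have hf : (n.factorial : ℂ) ≠ 0 := by exact_mod_cast n.factorial_ne_zero
  simp [Fintype.card_perm, hf]

/-- The norm is one. -/
theorem norm_chiOp (χ : Equiv.Perm (Fin n) →* ℤˣ) (k : Fin n → ℤ) : ‖chiOp χ k‖ = 1 := by
  refine le_antisymm (norm_chiOp_le χ k) ?_
  refine le_of_forall_pos_le_add fun ε hε => ?_
  obtain ⟨v, h1, -, h2⟩ := exists_approx' χ k (z := fun _ => 1) (by simp) hε
  rw [symbol_one, one_smul] at h2
  have h3 : 0 < ‖v‖ := norm_pos_iff.2 h1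
  have h4 : ‖v‖ ≤ ‖chiOp χ k v‖ + ‖chiOp χ k v - v‖ := by
    have := norm_sub_le (chiOp χ k v) (chiOp χ k v - v)
    rwa [sub_sub_cancel] at this
  have h5 := (chiOp χ k).le_opNorm v
  have h6 : 1 * ‖v‖ ≤ (‖chiOp χ k‖ + ε) * ‖v‖ := by
    rw [add_mul]
    linarith
  exact le_of_mul_le_mul_right h6 h3

/-- An operator with a bounded inverse is bounded below. -/
lemma bounded_below {E : Type*} [NormedAddCommGroup E] [NormedSpace ℂ E] {T : E →L[ℂ] E} {l : ℂ}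
    (h : l ∉ spectrum ℂ T) : ∃ M : ℝ, 0 < M ∧ ∀ v, ‖v‖ ≤ M * ‖l • v - T v‖ := by
  rw [spectrum.notMem_iff] at h
  obtain ⟨u, hu⟩ := h
  refine ⟨‖(↑(u⁻¹) : E →L[ℂ] E)‖ + 1, by positivity, fun v => ?_⟩
  have h1 : (↑(u⁻¹) : E →L[ℂ] E) ((↑u : E →L[ℂ] E) v) = v := by
    rw [← mul_apply_eq_comp, Units.inv_mul, one_apply_eq_self]
  have h2 : (↑u : E →L[ℂ] E) v = l • v - T v := by
    rw [hu, sub_apply, Algebra.algebraMap_eq_smul_one, smul_apply, one_apply_eq_self]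
  rw [h2] at h1
  calc ‖v‖ = ‖(↑(u⁻¹) : E →L[ℂ] E) (l • v - T v)‖ := by rw [h1]
    _ ≤ ‖(↑(u⁻¹) : E →L[ℂ] E)‖ * ‖l • v - T v‖ := ContinuousLinearMap.le_opNorm _ _
    _ ≤ _ := by gcongr; linarith

/-- The values of the symbol belong to the spectrum. -/
theorem symbol_mem_spectrum (χ : Equiv.Perm (Fin n) →* ℤˣ) (k : Fin n → ℤ) {z : Fin n → ℂ}
    (hz : ∀ i, ‖z i‖ = 1) : symbol k z ∈ spectrum ℂ (chiOp χ k) := by
  by_contra hcon
  obtain ⟨M, hM, h⟩ := bounded_below hcon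
  obtain ⟨v, h1, -, h2⟩ := exists_approx' χ k hz (ε := 1 / (2 * M)) (by positivity)
  have h3 : 0 < ‖v‖ := norm_pos_iff.2 h1
  have h4 := h v
  rw [norm_sub_rev] at h4
  have h5 : M * (1 / (2 * M) * ‖v‖) = ‖v‖ / 2 := by field_simp
  have h6 : M * ‖chiOp χ k v - symbol k z • v‖ ≤ M * (1 / (2 * M) * ‖v‖) := by gcongr
  linarith

section gauge

/-- The degree. -/
def dg (x : Fin n → ℕ) : ℕ := ∑ i, x i

lemma gauge_aux (c : ℂ) (hc : ‖c‖ = 1) (v : H n) :
    Memℓp (fun x : Fin n → ℕ => c ^ dg x * v x) 2 := by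
  have h := lp.memℓp v
  rw [memℓp_gen_iff (by simp)] at h ⊢
  simpa [norm_mul, norm_pow, hc] using h

/-- Multiplication of the coefficients by `c ^ degree`. -/
noncomputable def gauge (c : ℂ) (hc : ‖c‖ = 1) (v : H n) : H n :=
  ⟨fun x => c ^ dg x * v x, gauge_aux c hc v⟩

lemma gauge_apply (c : ℂ) (hc : ‖c‖ = 1) (v : H n) (x : Fin n → ℕ) :
    gauge c hc v x = c ^ dg x * v x := rfl

lemma norm_gauge (c : ℂ) (hc : ‖c‖ = 1) (v : H n) : ‖gauge c hc v‖ = ‖v‖ := by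
  have h1 := lp.norm_rpow_eq_tsum (p := 2) (by simp) (gauge c hc v)
  have h2 := lp.norm_rpow_eq_tsum (p := 2) (by simp) v
  have h3 : ∀ x, ‖gauge c hc v x‖ = ‖v x‖ := by
    intro x
    rw [gauge_apply, norm_mul, norm_pow, hc, one_pow, one_mul]
  simp only [h3] at h1
  rw [← h2] at h1
  simp only [ENNReal.toReal_ofNat, Real.rpow_ofNat] at h1
  exact (pow_left_inj₀ (norm_nonneg _) (norm_nonneg _) two_ne_zero).1 h1

lemma gauge_mem (χ : Equiv.Perm (Fin n) →* ℤˣ) (c : ℂ) (hc : ‖c‖ = 1) {v : H n}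
    (hv : v ∈ chiSpace χ) : gauge c hc v ∈ chiSpace χ := by
  intro π x
  rw [gauge_apply, gauge_apply, hv π x]
  have : dg (x ∘ π) = dg x := Equiv.sum_comp π x
  rw [this]
  ring

lemma shiftFun_gauge (c : ℂ) (hc : ‖c‖ = 1) (k : Fin n → ℤ) (v : H n) (x : Fin n → ℕ) :
    shiftFun k (gauge c hc v) x = c ^ (-∑ i, k i) * (c ^ dg x * shiftFun k v x) := by
  have hc0 : c ≠ 0 := by
    rintro rfl
    simp at hc
  unfold shiftFun
  by_cases h : ∀ i, k i ≤ x i
  · rw [if_pos h, if_pos h, gauge_apply, ← mul_assoc]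
    congr 1
    rw [← zpow_natCast, ← zpow_natCast, ← zpow_add₀ hc0]
    congr 1
    unfold dg
    push_cast
    have h2 : ∀ i, ((((x i : ℤ) - k i).toNat : ℕ) : ℤ) = x i - k i := fun i => by
      have := h i
      omega
    rw [Finset.sum_congr rfl fun i _ => h2 i, Finset.sum_sub_distrib]
    ring
  · rw [if_neg h, if_neg h]
    ring

lemma avgOp_gauge (c : ℂ) (hc : ‖c‖ = 1) (k : Fin n → ℤ) (v : H n) :
    avgOp k (gauge c hc v) = c ^ (-∑ i, k i) • gauge c hc (avgOp k v) := by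
  ext x
  rw [lp.coeFn_smul, Pi.smul_apply, smul_eq_mul, gauge_apply, avgOp_apply, avgOp_apply]
  have h : ∀ π : Equiv.Perm (Fin n), shiftFun (k ∘ π) (gauge c hc v) x =
      c ^ (-∑ i, k i) * c ^ dg x * shiftFun (k ∘ π) v x := by
    intro π
    rw [shiftFun_gauge]
    have : ∑ i, (k ∘ π) i = ∑ i, k i := Equiv.sum_comp π k
    rw [this]
    ring
  rw [Finset.sum_congr rfl fun π _ => h π, ← Finset.mul_sum]
  ring

lemma exists_root {s : ℤ} (hs : s ≠ 0) {w : ℂ} (hw : ‖w‖ = 1) : ∃ c : ℂ, ‖c‖ = 1 ∧ c ^ s = w := by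
  refine ⟨Complex.exp ((w.arg / s : ℝ) * Complex.I), Complex.norm_exp_ofReal_mul_I _, ?_⟩
  rw [← Complex.exp_int_mul]
  have h1 : (s : ℂ) * (((w.arg / s : ℝ) : ℂ) * Complex.I) = w.arg * Complex.I := by
    have : (s : ℂ) ≠ 0 := by exact_mod_cast hs
    push_cast
    field_simp
  rw [h1]
  have h2 := Complex.norm_mul_exp_arg_mul_I w
  rwa [hw, Complex.ofReal_one, one_mul] at h2

end gauge

section degree

/-- No coefficients in degrees above `D`. -/
def DegLE (D : ℤ) (v : H n) : Prop := ∀ x, D < dg x → v x = 0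

lemma degLE_avgOp (k : Fin n → ℤ) {D : ℤ} {v : H n} (h : DegLE D v) :
    DegLE (D + ∑ i, k i) (avgOp k v) := by
  intro x hx
  rw [avgOp_apply]
  rw [Finset.sum_eq_zero, mul_zero]
  intro π _
  unfold shiftFun
  split_ifs with h1
  · apply h
    unfold dg at hx ⊢
    push_cast at hx ⊢
    have h2 : ∀ i, ((((x i : ℤ) - (k ∘ π) i).toNat : ℕ) : ℤ) = x i - (k ∘ π) i := fun i => by
      have := h1 i
      omega
    rw [Finset.sum_congr rfl fun i _ => h2 i, Finset.sum_sub_distrib]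
    have : ∑ i, (k ∘ π) i = ∑ i, k i := Equiv.sum_comp π k
    rw [this]
    linarith
  · rfl

lemma degLE_of_finSupp {v : H n} (h : FinSupp v) : ∃ D : ℕ, DegLE D v := by
  obtain ⟨s, hs⟩ := h
  refine ⟨s.sup dg, fun x hx => hs x fun hxs => ?_⟩
  have := Finset.le_sup (f := dg) hxs
  have h2 : (dg x : ℤ) ≤ (s.sup dg : ℕ) := by exact_mod_cast this
  linarith

lemma eq_zero_of_degLE {v : H n} {D : ℤ} (hD : D < 0) (h : DegLE D v) : v = 0 := by
  ext x
  exact h x (by have : (0 : ℤ) ≤ dg x := by positivity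
                linarith)

lemma pow_chiOp_degLE (χ : Equiv.Perm (Fin n) →* ℤˣ) (k : Fin n → ℤ) {D : ℤ} {v : chiSpace χ}
    (h : DegLE D (v : H n)) (j : ℕ) :
    DegLE (D + j * ∑ i, k i) (((chiOp χ k ^ j) v : chiSpace χ) : H n) := by
  induction j with
  | zero => simpa using h
  | succ j ih =>
    rw [pow_succ', mul_apply_eq_comp, chiOp_coe]
    have := degLE_avgOp k ih
    convert this using 1
    push_cast
    ring

lemma pow_chiOp_eq_zero (χ : Equiv.Perm (Fin n) →* ℤˣ) (k : Fin n → ℤ) (hs : ∑ i, k i < 0)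
    {v : chiSpace χ} (h : FinSupp (v : H n)) : ∃ J : ℕ, (chiOp χ k ^ J) v = 0 := by
  obtain ⟨D, hD⟩ := degLE_of_finSupp h
  refine ⟨D + 1, Subtype.ext ?_⟩
  have h1 := pow_chiOp_degLE χ k hD (D + 1)
  refine eq_zero_of_degLE ?_ h1
  push_cast
  nlinarith

end degree

/-- The gauge transformation on `chiSpace χ`. -/
noncomputable def gauge' (χ : Equiv.Perm (Fin n) →* ℤˣ) (c : ℂ) (hc : ‖c‖ = 1)
    (v : chiSpace χ) : chiSpace χ := ⟨gauge c hc (v : H n), gauge_mem χ c hc v.2⟩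

lemma norm_gauge' (χ : Equiv.Perm (Fin n) →* ℤˣ) (c : ℂ) (hc : ‖c‖ = 1) (v : chiSpace χ) :
    ‖gauge' χ c hc v‖ = ‖v‖ := norm_gauge c hc (v : H n)

lemma circle_aux (χ : Equiv.Perm (Fin n) →* ℤˣ) (k : Fin n → ℤ) {l m c : ℂ} (hc : ‖c‖ = 1)
    (h4 : c ^ (-∑ i, k i) * m = l) (v : chiSpace χ) :
    l • gauge' χ c hc v - chiOp χ k (gauge' χ c hc v) =
      c ^ (-∑ i, k i) • gauge' χ c hc (m • v - chiOp χ k v) := by
  apply Subtype.ext
  have h1 : (((l • gauge' χ c hc v - chiOp χ k (gauge' χ c hc v) : chiSpace χ)) : H n) =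
      l • gauge c hc (v : H n) - avgOp k (gauge c hc (v : H n)) := rfl
  have h2 : (((c ^ (-∑ i, k i) • gauge' χ c hc (m • v - chiOp χ k v) : chiSpace χ)) : H n) =
      c ^ (-∑ i, k i) • gauge c hc (m • (v : H n) - avgOp k (v : H n)) := rfl
  rw [h1, h2, avgOp_gauge]
  ext x
  simp only [lp.coeFn_sub, lp.coeFn_smul, Pi.sub_apply, Pi.smul_apply, smul_eq_mul, gauge_apply]
  rw [← h4]
  ring

lemma circle_bound (χ : Equiv.Perm (Fin n) →* ℤˣ) (k : Fin n → ℤ) (hs : ∑ i, k i ≠ 0)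
    {l : ℂ} (h0 : l ≠ 0) {M : ℝ} (hb : ∀ v : chiSpace χ, ‖v‖ ≤ M * ‖l • v - chiOp χ k v‖)
    {m : ℂ} (hm : ‖m‖ = ‖l‖) (v : chiSpace χ) : ‖v‖ ≤ M * ‖m • v - chiOp χ k v‖ := by
  have hl0 : ‖l‖ ≠ 0 := norm_ne_zero_iff.2 h0
  have hm0 : m ≠ 0 := by
    rintro rfl
    rw [norm_zero] at hm
    exact hl0 hm.symm
  obtain ⟨c, hc, hcs⟩ := exists_root hs (w := m / l) (by rw [norm_div, hm, div_self hl0])
  have h4 : c ^ (-∑ i, k i) * m = l := by
    rw [zpow_neg, hcs]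
    field_simp
  have h5 : ‖l • gauge' χ c hc v - chiOp χ k (gauge' χ c hc v)‖ = ‖m • v - chiOp χ k v‖ := by
    rw [circle_aux χ k hc h4 v, norm_smul, norm_zpow, hc, one_zpow, one_mul, norm_gauge']
  rw [← norm_gauge' χ c hc v, ← h5]
  exact hb _

/-- Points of the open disc without the centre belong to the spectrum, if the sum of the exponents
is negative. -/
lemma mem_spectrum_of_neg (χ : Equiv.Perm (Fin n) →* ℤˣ) (k : Fin n → ℤ) (hs : ∑ i, k i < 0)
    {l : ℂ} (h0 : l ≠ 0) (h1 : ‖l‖ < 1) : l ∈ spectrum ℂ (chiOp χ k) := by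
  by_contra hcon
  obtain ⟨M, hM, hb⟩ := bounded_below hcon
  set T := chiOp χ k with hT
  -- bounded below on the whole circle
  have hcirc : ∀ m : ℂ, ‖m‖ = ‖l‖ → ∀ v : chiSpace χ, ‖v‖ ≤ M * ‖m • v - T v‖ :=
    fun m hm v => circle_bound χ k hs.ne h0 hb hm v
  -- the maximum principle
  have hpoly : ∀ (v : chiSpace χ) (J : ℕ), (T ^ J) v = 0 →
      ‖∑ j ∈ Finset.range J, (T ^ j) v‖ ≤ M * ‖v‖ := by
    intro v J hJ
    have hl : 0 < ‖l‖ := norm_pos_iff.2 h0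
    let g : ℂ → chiSpace χ := fun w => ∑ j ∈ Finset.range J, w ^ (j + 1) • (T ^ j) v
    have hg : Differentiable ℂ g := by
      apply Differentiable.fun_sum
      intro j _
      exact (differentiable_id.pow _).smul_const _
    have hfr : ∀ w ∈ frontier (Metric.ball (0 : ℂ) ‖l‖⁻¹), ‖g w‖ ≤ M * ‖v‖ := by
      intro w hw
      rw [frontier_ball _ (by positivity), mem_sphere_zero_iff_norm] at hw
      have hw0 : w ≠ 0 := by
        rintro rfl
        rw [norm_zero] at hw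
        have : 0 < ‖l‖⁻¹ := by positivity
        linarith
      have h2 := hcirc w⁻¹ (by rw [norm_inv, hw, inv_inv]) (g w)
      have h3 : w⁻¹ • g w - T (g w) = v := by
        have h4 : w⁻¹ • g w = ∑ j ∈ Finset.range J, w ^ j • (T ^ j) v := by
          simp only [g]
          rw [Finset.smul_sum]
          refine Finset.sum_congr rfl fun j _ => ?_
          rw [smul_smul, pow_succ]
          congr 1
          field_simp
        have h5 : T (g w) = ∑ j ∈ Finset.range J, w ^ (j + 1) • (T ^ (j + 1)) v := by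
          simp only [g]
          rw [map_sum]
          refine Finset.sum_congr rfl fun j _ => ?_
          rw [map_smul, pow_succ' T j, mul_apply_eq_comp]
        rw [h4, h5, ← Finset.sum_sub_distrib,
          Finset.sum_range_sub' (fun j => w ^ j • (T ^ j) v) J, hJ]
        simp
      rwa [h3] at h2
    have h6 := Complex.norm_le_of_forall_mem_frontier_norm_le Metric.isBounded_ball
      hg.diffContOnCl hfr (z := 1) (by
        rw [closure_ball _ (by positivity), mem_closedBall_zero_iff, norm_one]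
        exact (one_le_inv₀ hl).2 h1.le)
    simpa [g] using h6
  -- the approximate eigenvector
  obtain ⟨v, h2, h3, h4⟩ := exists_approx' χ k (z := fun _ => 1) (by simp) (ε := 1 / (2 * M))
    (by positivity)
  rw [symbol_one, one_smul, norm_sub_rev] at h4
  obtain ⟨J, hJ⟩ := pow_chiOp_eq_zero χ k hs h3
  have h5 := hpoly (v - T v) J (by
    rw [map_sub, ← mul_apply_eq_comp, ← pow_succ, pow_succ',
      mul_apply_eq_comp, hJ, map_zero, sub_zero])
  have h6 : ∑ j ∈ Finset.range J, (T ^ j) (v - T v) = v := by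
    have h7 : ∀ j, (T ^ j) (v - T v) = (T ^ j) v - (T ^ (j + 1)) v := by
      intro j
      rw [map_sub, pow_succ, mul_apply_eq_comp]
    rw [Finset.sum_congr rfl fun j _ => h7 j, Finset.sum_range_sub' (fun j => (T ^ j) v) J, hJ]
    simp
  rw [h6] at h5
  have h8 : 0 < ‖v‖ := norm_pos_iff.2 h2
  have h9 : M * (1 / (2 * M) * ‖v‖) = ‖v‖ / 2 := by field_simp
  have h10 : M * ‖v - T v‖ ≤ M * (1 / (2 * M) * ‖v‖) := by gcongr
  linarith

end Pool.Agent.SymShift
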