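import Pool.Agent.SymShift.Adj

/-!
# The numerical range, and the spectrum in general
-/

namespace Pool.Agent.SymShift

open scoped ENNReal InnerProductSpace
open Filter Topology

variable {n : ℕ}

section fourier

/-- The sum of the powers of an `N`-th root of unity. -/
lemma root_sum {N : ℕ} {ζ : ℂ} (hζ : IsPrimitiveRoot ζ N) (m : ℤ) (hm : |m| < N) :
    ∑ j : Fin N, (ζ ^ (j : ℕ)) ^ m = if m = 0 then (N : ℂ) else 0 := by
  split_ifs with h
  · simp [h]
  · have h1 : ζ ^ m ≠ 1 := by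
      intro hcon
      rw [hζ.zpow_eq_one_iff_dvd] at hcon
      have := Int.eq_zero_of_abs_lt_dvd hcon hm
      exact h this
    have h2 : ∀ j : Fin N, (ζ ^ (j : ℕ)) ^ m = (ζ ^ m) ^ (j : ℕ) := by
      intro j
      rw [← zpow_natCast, ← zpow_natCast, ← zpow_mul, ← zpow_mul, mul_comm]
    rw [Finset.sum_congr rfl fun j _ => h2 j, Fin.sum_univ_eq_sum_range (fun j => (ζ ^ m) ^ j) N,
      geom_sum_eq h1]
    have h3 : (ζ ^ m) ^ N = 1 := by
      rw [← zpow_natCast, ← zpow_mul, mul_comm, zpow_mul, zpow_natCast, hζ.pow_eq_one, one_zpow]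
    rw [h3, sub_self, zero_div]

/-- The points of the discrete torus. -/
def pt {N : ℕ} (ζ : ℂ) (ξ : Fin n → Fin N) : Fin n → ℂ := fun i => ζ ^ (ξ i : ℕ)

lemma norm_pt {N : ℕ} {ζ : ℂ} (hζ : ‖ζ‖ = 1) (ξ : Fin n → Fin N) (i : Fin n) :
    ‖pt ζ ξ i‖ = 1 := by
  unfold pt
  rw [norm_pow, hζ, one_pow]

lemma torus_sum {N : ℕ} {ζ : ℂ} (hζ : IsPrimitiveRoot ζ N) (m : Fin n → ℤ)
    (hm : ∀ i, |m i| < N) :
    ∑ ξ : Fin n → Fin N, ∏ i, pt ζ ξ i ^ m i = if m = 0 then (N : ℂ) ^ n else 0 := by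
  have h1 : ∑ ξ : Fin n → Fin N, ∏ i, pt ζ ξ i ^ m i =
      ∏ i, ∑ j : Fin N, (ζ ^ (j : ℕ)) ^ m i := by
    rw [Finset.prod_univ_sum, Fintype.piFinset_univ]
    rfl
  rw [h1, Finset.prod_congr rfl fun i _ => root_sum hζ (m i) (hm i)]
  split_ifs with h
  · subst h
    simp
  · obtain ⟨i, hi⟩ := Function.ne_iff.1 h
    exact Finset.prod_eq_zero (Finset.mem_univ i) (if_neg hi)

/-- The trigonometric polynomial of `v`. -/
noncomputable def poly (v : (Fin n → ℕ) → ℂ) (s : Finset (Fin n → ℕ)) (z : Fin n → ℂ) : ℂ :=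
  ∑ x ∈ s, v x * ∏ i, z i ^ (-(x i : ℤ))

/-- The sum of the products of the coefficients of `v` at points with difference `m`. -/
noncomputable def corr (v : (Fin n → ℕ) → ℂ) (s : Finset (Fin n → ℕ)) (m : Fin n → ℤ) : ℂ :=
  ∑ y ∈ s, ∑ x ∈ s, if (fun i => (y i : ℤ) - x i - m i) = 0 then (starRingEnd ℂ) (v y) * v x else 0

lemma conj_pow {z : ℂ} (hz : ‖z‖ = 1) (m : ℤ) : (starRingEnd ℂ) (z ^ m) = z ^ (-m) := by
  have hc : (starRingEnd ℂ) z = z⁻¹ := by
    rw [Complex.inv_def, Complex.normSq_eq_norm_sq, hz]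
    simp
  rw [map_zpow₀, hc, inv_zpow']

lemma fourier {N : ℕ} {ζ : ℂ} (hζ : IsPrimitiveRoot ζ N) (hζ1 : ‖ζ‖ = 1)
    (v : (Fin n → ℕ) → ℂ) (s : Finset (Fin n → ℕ)) (m : Fin n → ℤ)
    (hN : ∀ x ∈ s, ∀ y ∈ s, ∀ i, |(y i : ℤ) - x i - m i| < N) :
    ∑ ξ : Fin n → Fin N, (∏ i, pt ζ ξ i ^ (-m i)) *
      ((starRingEnd ℂ) (poly v s (pt ζ ξ)) * poly v s (pt ζ ξ)) = (N : ℂ) ^ n * corr v s m := by
  have hz0 : ∀ (ξ : Fin n → Fin N) i, pt ζ ξ i ≠ 0 := by
    intro ξ i h0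
    have := norm_pt hζ1 ξ i
    rw [h0, norm_zero] at this
    exact zero_ne_one this
  have h1 : ∀ ξ : Fin n → Fin N, (∏ i, pt ζ ξ i ^ (-m i)) *
      ((starRingEnd ℂ) (poly v s (pt ζ ξ)) * poly v s (pt ζ ξ)) =
      ∑ y ∈ s, ∑ x ∈ s, ((starRingEnd ℂ) (v y) * v x) *
        ∏ i, pt ζ ξ i ^ ((y i : ℤ) - x i - m i) := by
    intro ξ
    unfold poly
    rw [map_sum, Finset.sum_mul_sum, Finset.mul_sum]
    refine Finset.sum_congr rfl fun y _ => ?_
    rw [Finset.mul_sum]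
    refine Finset.sum_congr rfl fun x _ => ?_
    rw [map_mul, map_prod]
    have h2 : ∏ i, pt ζ ξ i ^ ((y i : ℤ) - x i - m i) =
        (∏ i, pt ζ ξ i ^ (-m i)) * ((∏ i, (starRingEnd ℂ) (pt ζ ξ i ^ (-(y i : ℤ)))) *
          ∏ i, pt ζ ξ i ^ (-(x i : ℤ))) := by
      rw [← Finset.prod_mul_distrib, ← Finset.prod_mul_distrib]
      refine Finset.prod_congr rfl fun i _ => ?_
      rw [conj_pow (norm_pt hζ1 ξ i), ← zpow_add₀ (hz0 ξ i), ← zpow_add₀ (hz0 ξ i)]
      congr 1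
      ring
    rw [h2]
    ring
  rw [Finset.sum_congr rfl fun ξ _ => h1 ξ, Finset.sum_comm]
  unfold corr
  rw [Finset.mul_sum]
  refine Finset.sum_congr rfl fun y hy => ?_
  rw [Finset.sum_comm, Finset.mul_sum]
  refine Finset.sum_congr rfl fun x hx => ?_
  rw [← Finset.mul_sum, torus_sum hζ _ (hN x hx y hy)]
  split_ifs
  · ring
  · ring

lemma corr_shift {v : (Fin n → ℕ) → ℂ} {s : Finset (Fin n → ℕ)} (hv : ∀ x ∉ s, v x = 0)
    (m : Fin n → ℤ) : ∑ y ∈ s, (starRingEnd ℂ) (v y) * shiftFun m v y = corr v s m := by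
  classical
  unfold corr
  refine Finset.sum_congr rfl fun y _ => ?_
  rw [shiftFun_tau]
  split_ifs with h
  · by_cases hs : tau m y ∈ s
    · rw [Finset.sum_eq_single (tau m y)]
      · rw [if_pos]
        funext i
        have := h i
        unfold tau
        simp only [Pi.zero_apply]
        omega
      · intro x _ hx
        rw [if_neg]
        intro h0
        apply hx
        funext i
        have h1 := congrFun h0 i
        have h2 := h i
        unfold tau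
        simp only [Pi.zero_apply] at h1
        omega
      · intro h'; exact absurd hs h'
    · rw [hv _ hs, mul_zero]
      symm
      refine Finset.sum_eq_zero fun x hx => ?_
      rw [if_neg]
      intro h0
      apply hs
      have : tau m y = x := by
        funext i
        have h1 := congrFun h0 i
        have h2 := h i
        unfold tau
        simp only [Pi.zero_apply] at h1
        omega
      rwa [this]
  · rw [mul_zero]
    symm
    refine Finset.sum_eq_zero fun x _ => ?_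
    rw [if_neg]
    intro h0
    apply h
    intro i
    have h1 := congrFun h0 i
    simp only [Pi.zero_apply] at h1
    omega

end fourier

lemma numeric_fin (k : Fin n → ℤ) {w : ℂ} {c : ℝ}
    (hc : ∀ z : Fin n → ℂ, (∀ i, ‖z i‖ = 1) → (w * symbol k z).re ≤ c) {v : H n}
    (hv : FinSupp v) : (w * ⟪v, avgOp k v⟫_ℂ).re ≤ c * ‖v‖ ^ 2 := by
  classical
  obtain ⟨s, hs⟩ := hv
  -- a bound for all exponents
  obtain ⟨N, hN0, hN1⟩ : ∃ N : ℕ, 0 < N ∧ ∀ x ∈ s, ∀ y ∈ s, ∀ (m : Fin n → ℤ),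
      (m = 0 ∨ ∃ π : Equiv.Perm (Fin n), m = k ∘ π) → ∀ i, |(y i : ℤ) - x i - m i| < N := by
    refine ⟨1 + s.sup dg + ∑ i, (k i).natAbs, by omega, ?_⟩
    intro x hx y hy m hm i
    have h1 : x i ≤ s.sup dg :=
      (Finset.single_le_sum (f := fun i => x i) (fun _ _ => Nat.zero_le _)
        (Finset.mem_univ i)).trans (Finset.le_sup (f := dg) hx)
    have h2 : y i ≤ s.sup dg :=
      (Finset.single_le_sum (f := fun i => y i) (fun _ _ => Nat.zero_le _)
        (Finset.mem_univ i)).trans (Finset.le_sup (f := dg) hy)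
    have h3 : (m i).natAbs ≤ ∑ i, (k i).natAbs := by
      rcases hm with rfl | ⟨π, rfl⟩
      · simp
      · exact Finset.single_le_sum (f := fun i => (k i).natAbs) (fun _ _ => Nat.zero_le _)
          (Finset.mem_univ (π i))
    have h4 : ((1 + s.sup dg + ∑ i, (k i).natAbs : ℕ) : ℤ) =
        1 + (s.sup dg : ℕ) + ((∑ i, (k i).natAbs : ℕ) : ℤ) := by push_cast; ring
    rw [abs_lt, h4]
    omega
  have hζ : IsPrimitiveRoot (Complex.exp (2 * Real.pi * Complex.I / N)) N :=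
    Complex.isPrimitiveRoot_exp N hN0.ne'
  set ζ := Complex.exp (2 * Real.pi * Complex.I / N) with hζdef
  have hζ1 : ‖ζ‖ = 1 := hζ.norm'_eq_one hN0.ne'
  have hNn : (0 : ℝ) < (N : ℝ) ^ n := by positivity
  -- the norm
  have hA : ((N : ℝ) ^ n) * ‖v‖ ^ 2 =
      ∑ ξ : Fin n → Fin N, ‖poly v s (pt ζ ξ)‖ ^ 2 := by
    have h1 := fourier hζ hζ1 v s 0 (fun x hx y hy i => hN1 x hx y hy 0 (Or.inl rfl) i)
    have h2 : corr v s 0 = ((‖v‖ ^ 2 : ℝ) : ℂ) := by
      rw [← corr_shift hs, norm_sq_of_support v s hs]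
      push_cast
      refine Finset.sum_congr rfl fun y _ => ?_
      have h3 : shiftFun (0 : Fin n → ℤ) v y = v y := by
        unfold shiftFun
        simp
      rw [h3, ← Complex.conj_mul']
    rw [h2] at h1
    have h4 : ∑ ξ : Fin n → Fin N, (∏ i, pt ζ ξ i ^ (-(0 : Fin n → ℤ) i)) *
        ((starRingEnd ℂ) (poly v s (pt ζ ξ)) * poly v s (pt ζ ξ)) =
        ((∑ ξ : Fin n → Fin N, ‖poly v s (pt ζ ξ)‖ ^ 2 : ℝ) : ℂ) := by
      push_cast
      refine Finset.sum_congr rfl fun ξ _ => ?_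
      rw [Complex.conj_mul']
      simp
    rw [h4] at h1
    exact_mod_cast h1.symm
  -- the form
  have hB : ((N : ℂ) ^ n) * ⟪v, avgOp k v⟫_ℂ =
      ∑ ξ : Fin n → Fin N, symbol k (pt ζ ξ) * ((‖poly v s (pt ζ ξ)‖ ^ 2 : ℝ) : ℂ) := by
    have h1 : ⟪v, avgOp k v⟫_ℂ = (n.factorial : ℂ)⁻¹ *
        ∑ π : Equiv.Perm (Fin n), corr v s (k ∘ π) := by
      rw [← inner_conj_symm, inner_of_support _ v s hs, map_sum]
      have h2 : ∀ y ∈ s, (starRingEnd ℂ) ((starRingEnd ℂ) (avgOp k v y) * v y) =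
          (n.factorial : ℂ)⁻¹ * ∑ π : Equiv.Perm (Fin n),
            (starRingEnd ℂ) (v y) * shiftFun (k ∘ π) v y := by
        intro y _
        rw [map_mul, Complex.conj_conj, avgOp_apply, ← Finset.mul_sum]
        ring
      rw [Finset.sum_congr rfl h2, ← Finset.mul_sum, Finset.sum_comm]
      congr 1
      exact Finset.sum_congr rfl fun π _ => corr_shift hs (k ∘ π)
    have h3 : ∀ π : Equiv.Perm (Fin n), (N : ℂ) ^ n * corr v s (k ∘ π) =
        ∑ ξ : Fin n → Fin N, (∏ i, pt ζ ξ i ^ (-k (π i))) *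
          ((‖poly v s (pt ζ ξ)‖ ^ 2 : ℝ) : ℂ) := by
      intro π
      rw [← fourier hζ hζ1 v s (k ∘ π)
        (fun x hx y hy i => hN1 x hx y hy (k ∘ π) (Or.inr ⟨π, rfl⟩) i)]
      refine Finset.sum_congr rfl fun ξ _ => ?_
      rw [Complex.conj_mul']
      push_cast
      rfl
    rw [h1, mul_left_comm, Finset.mul_sum, Finset.sum_congr rfl fun π _ => h3 π, Finset.sum_comm,
      Finset.mul_sum]
    refine Finset.sum_congr rfl fun ξ _ => ?_
    unfold symbol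
    rw [← Finset.sum_mul]
    ring
  have hC : (N : ℝ) ^ n * (w * ⟪v, avgOp k v⟫_ℂ).re =
      ∑ ξ : Fin n → Fin N, (w * symbol k (pt ζ ξ)).re * ‖poly v s (pt ζ ξ)‖ ^ 2 := by
    have h1 : (((N : ℝ) ^ n : ℝ) : ℂ) * (w * ⟪v, avgOp k v⟫_ℂ) =
        ∑ ξ : Fin n → Fin N, (w * symbol k (pt ζ ξ)) * ((‖poly v s (pt ζ ξ)‖ ^ 2 : ℝ) : ℂ) := by
      rw [mul_left_comm]
      push_cast
      rw [hB, Finset.mul_sum]
      refine Finset.sum_congr rfl fun ξ _ => ?_
      push_cast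
      ring
    have h2 := congrArg Complex.re h1
    rw [Complex.re_ofReal_mul, Complex.re_sum] at h2
    rw [h2]
    exact Finset.sum_congr rfl fun ξ _ => Complex.re_mul_ofReal _ _
  have hD : (N : ℝ) ^ n * (w * ⟪v, avgOp k v⟫_ℂ).re ≤ (N : ℝ) ^ n * (c * ‖v‖ ^ 2) := by
    rw [hC, mul_left_comm, hA, Finset.mul_sum]
    refine Finset.sum_le_sum fun ξ _ => ?_
    exact mul_le_mul_of_nonneg_right (hc _ (norm_pt hζ1 ξ)) (by positivity)
  exact le_of_mul_le_mul_left hD hNn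

lemma numeric (k : Fin n → ℤ) {w : ℂ} {c : ℝ}
    (hc : ∀ z : Fin n → ℂ, (∀ i, ‖z i‖ = 1) → (w * symbol k z).re ≤ c) (v : H n) :
    (w * ⟪v, avgOp k v⟫_ℂ).re ≤ c * ‖v‖ ^ 2 := by
  classical
  have h1 := lp.hasSum_single (E := fun _ : Fin n → ℕ => ℂ) (p := 2) (by simp) v
  have h2 : Tendsto (fun s : Finset (Fin n → ℕ) => (w * ⟪∑ i ∈ s, lp.single 2 i (v i),
      avgOp k (∑ i ∈ s, lp.single 2 i (v i))⟫_ℂ).re) atTop (𝓝 (w * ⟪v, avgOp k v⟫_ℂ).re) := by
    have hcont : Continuous fun u : H n => (w * ⟪u, avgOp k u⟫_ℂ).re := by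
      refine Complex.continuous_re.comp (continuous_const.mul ?_)
      exact continuous_id.inner (avgOp k).continuous
    exact (hcont.tendsto v).comp h1
  have h3 : Tendsto (fun s : Finset (Fin n → ℕ) => c * ‖∑ i ∈ s, lp.single 2 i (v i)‖ ^ 2) atTop
      (𝓝 (c * ‖v‖ ^ 2)) := by
    have hcont : Continuous fun u : H n => c * ‖u‖ ^ 2 := by fun_prop
    exact (hcont.tendsto v).comp h1
  refine le_of_tendsto_of_tendsto' h2 h3 fun s => ?_
  refine numeric_fin k hc ⟨s, fun x hx => ?_⟩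
  rw [lp.coeFn_sum, Finset.sum_apply]
  refine Finset.sum_eq_zero fun i hi => ?_
  rw [lp.single_apply_ne]
  rintro rfl
  exact hx hi

end Pool.Agent.SymShift
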