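import Mathlib

/-!
# Symmetrized tensor products of shifts: the notions used in the statements of the results

The Hilbert space tensor power `ℓ²(ℕ)^{⊗ n}` is realised as `ℓ²(ℕ^n)`: the vector
`e_{x 0} ⊗ ⋯ ⊗ e_{x (n - 1)}` is the basis vector with index `x : Fin n → ℕ`, and the elements are
given by their coefficients `v x`.
-/

namespace Pool.Agent.SymShiftPublic

open scoped ENNReal

/-- The `n`-th tensor power of `ℓ²(ℕ)`, realised as `ℓ²(ℕ^n)`. -/
def H (n : ℕ) : Type := lp (fun _ : Fin n → ℕ => ℂ) 2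

noncomputable instance (n : ℕ) : NormedAddCommGroup (H n) :=
  (inferInstance : NormedAddCommGroup (lp (fun _ : Fin n → ℕ => ℂ) 2))

noncomputable instance (n : ℕ) : InnerProductSpace ℂ (H n) :=
  (inferInstance : InnerProductSpace ℂ (lp (fun _ : Fin n → ℕ => ℂ) 2))

/-- The coefficients of an element of `ℓ²(ℕ^n)`. -/
def coef {n : ℕ} (v : H n) (x : Fin n → ℕ) : ℂ := (show lp (fun _ : Fin n → ℕ => ℂ) 2 from v) x

/-- For an integer `m` let `B m` be the power `S^m` of the unilateral shift if `m ≥ 0`, and the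
power `(S^*)^(-m)` of its adjoint if `m < 0`; it maps the basis vector `e_i` to `e_{i + m}`, and
to `0` if `i + m < 0`.  This is the action of `B (k 0) ⊗ ⋯ ⊗ B (k (n - 1))` on the
coefficients. -/
def shiftFun {n : ℕ} (k : Fin n → ℤ) (v : (Fin n → ℕ) → ℂ) (x : Fin n → ℕ) : ℂ :=
  if ∀ i, k i ≤ x i then v (fun i => ((x i : ℤ) - k i).toNat) else 0

lemma shiftFun_sum_le {n : ℕ} (k : Fin n → ℤ) (v : lp (fun _ : Fin n → ℕ => ℂ) 2)
    (s : Finset (Fin n → ℕ)) :
    ∑ x ∈ s, ‖shiftFun k v x‖ ^ (2 : ℝ≥0∞).toReal ≤ ‖v‖ ^ (2 : ℝ≥0∞).toReal := by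
  classical
  have h1 : ∑ x ∈ s, ‖shiftFun k v x‖ ^ (2 : ℝ≥0∞).toReal =
      ∑ x ∈ s.filter (fun x => ∀ i, k i ≤ x i),
        ‖v (fun i => ((x i : ℤ) - k i).toNat)‖ ^ (2 : ℝ≥0∞).toReal := by
    rw [Finset.sum_filter]
    refine Finset.sum_congr rfl fun x _ => ?_
    unfold shiftFun
    split_ifs with h
    · rfl
    · simp
  have h2 : ∑ x ∈ s.filter (fun x => ∀ i, k i ≤ x i),
        ‖v (fun i => ((x i : ℤ) - k i).toNat)‖ ^ (2 : ℝ≥0∞).toReal =
      ∑ y ∈ (s.filter (fun x => ∀ i, k i ≤ x i)).image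
        (fun x => (fun i => ((x i : ℤ) - k i).toNat : Fin n → ℕ)),
        ‖v y‖ ^ (2 : ℝ≥0∞).toReal := by
    rw [Finset.sum_image]
    intro x hx y hy hxy
    have hx' := (Finset.mem_filter.1 hx).2
    have hy' := (Finset.mem_filter.1 hy).2
    funext i
    have h3 := congrFun hxy i
    have h4 := hx' i
    have h5 := hy' i
    simp only at h3
    omega
  rw [h1, h2]
  exact lp.sum_rpow_le_norm_rpow (by simp) v _

/-- The vector with the coefficients `shiftFun k v`. -/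
def shiftVec {n : ℕ} (k : Fin n → ℤ) (v : H n) : H n :=
  ⟨shiftFun k (coef v), memℓp_gen' (shiftFun_sum_le k v)⟩

lemma shiftVec_add {n : ℕ} (k : Fin n → ℤ) (u v : H n) :
    shiftVec k (u + v) = shiftVec k u + shiftVec k v := by
  apply Subtype.ext
  funext x
  show shiftFun k (coef (u + v)) x = shiftFun k (coef u) x + shiftFun k (coef v) x
  unfold shiftFun
  split_ifs
  · rfl
  · simp

lemma shiftVec_smul {n : ℕ} (k : Fin n → ℤ) (c : ℂ) (v : H n) :
    shiftVec k (c • v) = c • shiftVec k v := by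
  apply Subtype.ext
  funext x
  show shiftFun k (coef (c • v)) x = c * shiftFun k (coef v) x
  unfold shiftFun
  split_ifs
  · rfl
  · simp

lemma norm_shiftVec {n : ℕ} (k : Fin n → ℤ) (v : H n) : ‖shiftVec k v‖ ≤ 1 * ‖v‖ := by
  rw [one_mul]
  exact lp.norm_le_of_forall_sum_le (E := fun _ : Fin n → ℕ => ℂ) (p := 2) (by simp)
    (norm_nonneg v) (shiftFun_sum_le k v)

/-- `shiftVec k` as a linear map. -/
def shiftLin {n : ℕ} (k : Fin n → ℤ) : H n →ₗ[ℂ] H n where
  toFun := shiftVec k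
  map_add' := shiftVec_add k
  map_smul' := shiftVec_smul k

/-- The operator `B (k 0) ⊗ ⋯ ⊗ B (k (n - 1))`. -/
noncomputable def shiftOp {n : ℕ} (k : Fin n → ℤ) : H n →L[ℂ] H n :=
  LinearMap.mkContinuous (shiftLin k) 1 (norm_shiftVec k)

/-- The average of the operators `B (k (π 0)) ⊗ ⋯ ⊗ B (k (π (n - 1)))` over all
permutations `π`. -/
noncomputable def avgOp {n : ℕ} (k : Fin n → ℤ) : H n →L[ℂ] H n :=
  ((n.factorial : ℂ)⁻¹) • ∑ π : Equiv.Perm (Fin n), shiftOp (k ∘ π)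

/-- The vector `v` is multiplied by `χ π` by every permutation `π` of the tensor factors. -/
def IsChi {n : ℕ} (χ : Equiv.Perm (Fin n) →* ℤˣ) (v : H n) : Prop :=
  ∀ (π : Equiv.Perm (Fin n)) (x : Fin n → ℕ), coef v (x ∘ π) = ((χ π : ℤ) : ℂ) * coef v x

lemma isChi_zero {n : ℕ} (χ : Equiv.Perm (Fin n) →* ℤˣ) : IsChi χ (0 : H n) := by
  intro π x
  show (0 : ℂ) = _ * (0 : ℂ)
  simp

lemma isChi_add {n : ℕ} (χ : Equiv.Perm (Fin n) →* ℤˣ) {u v : H n} (hu : IsChi χ u)
    (hv : IsChi χ v) : IsChi χ (u + v) := by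
  intro π x
  show coef u (x ∘ π) + coef v (x ∘ π) = _ * (coef u x + coef v x)
  rw [hu π x, hv π x, mul_add]

lemma isChi_smul {n : ℕ} (χ : Equiv.Perm (Fin n) →* ℤˣ) (c : ℂ) {v : H n} (hv : IsChi χ v) :
    IsChi χ (c • v) := by
  intro π x
  show c * coef v (x ∘ π) = _ * (c * coef v x)
  rw [hv π x]
  ring

/-- The subspace of the vectors which are multiplied by `χ π` by every permutation `π` of the
tensor factors; it is the symmetric tensor power if `χ = 1`, and the antisymmetric tensor power if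
`χ` is the sign. -/
def chiSpace {n : ℕ} (χ : Equiv.Perm (Fin n) →* ℤˣ) : Submodule ℂ (H n) where
  carrier := {v | IsChi χ v}
  zero_mem' := isChi_zero χ
  add_mem' := isChi_add χ
  smul_mem' := fun c _ => isChi_smul χ c

/-- The subspace `chiSpace χ` as a Hilbert space. -/
def ChiH {n : ℕ} (χ : Equiv.Perm (Fin n) →* ℤˣ) : Type := chiSpace χ

noncomputable instance {n : ℕ} (χ : Equiv.Perm (Fin n) →* ℤˣ) : NormedAddCommGroup (ChiH χ) :=
  (inferInstance : NormedAddCommGroup (chiSpace χ))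

noncomputable instance {n : ℕ} (χ : Equiv.Perm (Fin n) →* ℤˣ) : InnerProductSpace ℂ (ChiH χ) :=
  (inferInstance : InnerProductSpace ℂ (chiSpace χ))

lemma shiftFun_perm {n : ℕ} (χ : Equiv.Perm (Fin n) →* ℤˣ) (k : Fin n → ℤ) {v : H n}
    (hv : IsChi χ v) (π : Equiv.Perm (Fin n)) (x : Fin n → ℕ) :
    shiftFun (k ∘ π) (coef v) (x ∘ π) = ((χ π : ℤ) : ℂ) * shiftFun k (coef v) x := by
  unfold shiftFun
  have h1 : (∀ i, (k ∘ π) i ≤ ((x ∘ π) i : ℕ)) ↔ ∀ i, k i ≤ x i := by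
    constructor
    · intro h i
      have := h (π⁻¹ i)
      simpa using this
    · intro h i
      exact h (π i)
  by_cases h : ∀ i, k i ≤ x i
  · rw [if_pos (h1.2 h), if_pos h]
    exact hv π (fun i => ((x i : ℤ) - k i).toNat)
  · rw [if_neg (fun h' => h (h1.1 h')), if_neg h, mul_zero]

lemma coef_avgOp {n : ℕ} (k : Fin n → ℤ) (v : H n) (x : Fin n → ℕ) :
    coef (avgOp k v) x =
      (n.factorial : ℂ)⁻¹ * ∑ π : Equiv.Perm (Fin n), shiftFun (k ∘ π) (coef v) x := by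
  have h1 : ∀ (c : ℂ) (u : H n), coef (c • u) x = c * coef u x := fun _ _ => rfl
  have h2 : ∀ s : Finset (Equiv.Perm (Fin n)), coef (∑ π ∈ s, shiftOp (k ∘ π) v) x =
      ∑ π ∈ s, shiftFun (k ∘ π) (coef v) x := by
    classical
    intro s
    induction s using Finset.induction_on with
    | empty => simp only [Finset.sum_empty]; rfl
    | insert a s ha ih =>
      rw [Finset.sum_insert ha, Finset.sum_insert ha, ← ih]
      rfl
  unfold avgOp
  rw [smul_apply, h1, sum_apply, h2]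

lemma avgOp_isChi {n : ℕ} (χ : Equiv.Perm (Fin n) →* ℤˣ) (k : Fin n → ℤ) {v : H n}
    (hv : IsChi χ v) : IsChi χ (avgOp k v) := by
  intro π x
  rw [coef_avgOp, coef_avgOp, ← Equiv.sum_comp (Equiv.mulRight π)]
  have h : ∀ σ : Equiv.Perm (Fin n), shiftFun (k ∘ ((Equiv.mulRight π) σ)) (coef v) (x ∘ π) =
      ((χ π : ℤ) : ℂ) * shiftFun (k ∘ σ) (coef v) x := by
    intro σ
    rw [← shiftFun_perm χ (k ∘ σ) hv π x]
    rfl
  rw [Finset.sum_congr rfl fun σ _ => h σ, ← Finset.mul_sum]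
  ring

/-- The inclusion of `ChiH χ` into the whole space. -/
noncomputable def incl {n : ℕ} (χ : Equiv.Perm (Fin n) →* ℤˣ) : ChiH χ →L[ℂ] H n :=
  (chiSpace χ).subtypeL

/-- The symmetrized tensor product of the shifts `B (k 0), …, B (k (n - 1))`, restricted to
`ChiH χ`: this is `B (k 0) ⊙ ⋯ ⊙ B (k (n - 1))` if `χ = 1`, and
`B (k 0) ∧ ⋯ ∧ B (k (n - 1))` if `χ` is the sign. -/
noncomputable def chiOp {n : ℕ} (χ : Equiv.Perm (Fin n) →* ℤˣ) (k : Fin n → ℤ) :
    ChiH χ →L[ℂ] ChiH χ :=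
  ((avgOp k).comp (incl χ)).codRestrict (chiSpace χ) fun v => avgOp_isChi χ k v.2

/-- The spectrum of the operator `chiOp χ k` on the space `ChiH χ`. -/
noncomputable def spec {n : ℕ} (χ : Equiv.Perm (Fin n) →* ℤˣ) (k : Fin n → ℤ) : Set ℂ :=
  spectrum ℂ (chiOp χ k)

/-- The symbol of the symmetrized tensor product: the average of the monomials
`∏ i, z i ^ (-k (π i))` over all permutations `π`. -/
noncomputable def symbol {n : ℕ} (k : Fin n → ℤ) (z : Fin n → ℂ) : ℂ :=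
  (n.factorial : ℂ)⁻¹ * ∑ π : Equiv.Perm (Fin n), ∏ i, z i ^ (-k (π i))

/-- The set of the values of the symbol at the points all of whose coordinates have absolute
value one. -/
def symbolRange {n : ℕ} (k : Fin n → ℤ) : Set ℂ :=
  {c | ∃ z : Fin n → ℂ, (∀ i, ‖z i‖ = 1) ∧ c = symbol k z}

end Pool.Agent.SymShiftPublic
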