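import Pool.Agent.SymShift.Numeric

/-!
# The spectrum is between the range of the symbol and its convex hull
-/

namespace Pool.Agent.SymShift

open scoped ENNReal InnerProductSpace
open Filter Topology

variable {n : ℕ}

lemma isCompact_symbolRange (k : Fin n → ℤ) : IsCompact (symbolRange k) := by
  have h1 : symbolRange k = symbol k '' (Set.univ.pi fun _ : Fin n => Metric.sphere (0 : ℂ) 1) := by
    ext c
    constructor
    · rintro ⟨z, hz, rfl⟩
      exact ⟨z, fun i _ => by rw [mem_sphere_zero_iff_norm]; exact hz i, rfl⟩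
    · rintro ⟨z, hz, rfl⟩
      exact ⟨z, fun i => by have := hz i (Set.mem_univ i); rwa [mem_sphere_zero_iff_norm] at this, rfl⟩
  rw [h1]
  refine IsCompact.image_of_continuousOn (isCompact_univ_pi fun _ => isCompact_sphere _ _) ?_
  unfold symbol
  refine ContinuousOn.mul continuousOn_const (continuousOn_finsetSum _ fun π _ =>
    continuousOn_finsetProd _ fun i _ => ?_)
  refine ContinuousOn.zpow₀ (continuous_apply i).continuousOn _ fun z hz => Or.inl ?_
  have := hz i (Set.mem_univ i)
  rw [mem_sphere_zero_iff_norm] at this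
  intro h0
  rw [h0, norm_zero] at this
  exact zero_ne_one this

/-- Real linear functionals on `ℂ`. -/
lemma functional_eq (f : ℂ →L[ℝ] ℝ) (z : ℂ) :
    f z = (((f 1 : ℂ) - f Complex.I * Complex.I) * z).re := by
  have h1 : z = z.re • (1 : ℂ) + z.im • Complex.I := by
    apply Complex.ext <;> simp
  conv_lhs => rw [h1]
  rw [map_add, map_smul, map_smul]
  simp
  ring

lemma mem_hull_of_form {E : Type*} [NormedAddCommGroup E] [InnerProductSpace ℂ E]
    [CompleteSpace E] (T : E →L[ℂ] E) {K : Set ℂ}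
    (h : ∀ (w : ℂ) (c : ℝ), (∀ z ∈ K, (w * z).re ≤ c) → ∀ v : E, (w * ⟪v, T v⟫_ℂ).re ≤ c * ‖v‖ ^ 2)
    {l : ℂ} (hl : l ∈ spectrum ℂ T) : l ∈ closedConvexHull ℝ K := by
  by_contra hcon
  obtain ⟨f, u, hf1, hf2⟩ := geometric_hahn_banach_closed_point
    (convex_closedConvexHull (𝕜 := ℝ) (s := K)) isClosed_closedConvexHull hcon
  set w : ℂ := (f 1 : ℂ) - f Complex.I * Complex.I with hw
  have hform := h w u (fun z hz => by
    rw [← functional_eq f z]
    exact (hf1 z (subset_closedConvexHull hz)).le)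
  have hlw : u < (w * l).re := by
    rw [← functional_eq f l]
    exact hf2
  have hw0 : w ≠ 0 := by
    intro h0
    rw [h0] at hform hlw
    simp only [zero_mul, Complex.zero_re] at hlw
    by_cases hE : ∃ v : E, v ≠ 0
    · obtain ⟨v, hv⟩ := hE
      have h1 := hform v
      simp only [zero_mul, Complex.zero_re] at h1
      have h2 : 0 < ‖v‖ ^ 2 := by
        have := norm_pos_iff.2 hv
        positivity
      nlinarith
    · push Not at hE
      apply hl
      show IsUnit (algebraMap ℂ (E →L[ℂ] E) l - T)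
      rw [show algebraMap ℂ (E →L[ℂ] E) l - T = 1 from by
        ext v
        rw [hE v, map_zero, map_zero]]
      exact isUnit_one
  have hwn : 0 < ‖w‖ := norm_pos_iff.2 hw0
  set δ : ℝ := ((w * l).re - u) / ‖w‖ with hδ
  have hδ0 : 0 < δ := div_pos (by linarith) hwn
  apply hl
  show IsUnit (algebraMap ℂ (E →L[ℂ] E) l - T)
  refine ContinuousLinearMap.isUnit_of_forall_le_norm_inner_map _ (c := ⟨δ, hδ0.le⟩) hδ0 ?_
  intro v
  have h1 : ⟪v, (algebraMap ℂ (E →L[ℂ] E) l - T) v⟫_ℂ = l * (‖v‖ ^ 2 : ℝ) - ⟪v, T v⟫_ℂ := by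
    rw [sub_apply, Algebra.algebraMap_eq_smul_one, smul_apply, one_apply_eq_self, inner_sub_right,
      inner_smul_right, inner_self_eq_norm_sq_to_K]
    simp
  have h2 : ((w * l).re - u) * ‖v‖ ^ 2 ≤ (w * ⟪v, (algebraMap ℂ (E →L[ℂ] E) l - T) v⟫_ℂ).re := by
    rw [h1, mul_sub, Complex.sub_re, ← mul_assoc, Complex.re_mul_ofReal]
    have := hform v
    linarith
  have h3 : (w * ⟪v, (algebraMap ℂ (E →L[ℂ] E) l - T) v⟫_ℂ).re ≤
      ‖w‖ * ‖⟪v, (algebraMap ℂ (E →L[ℂ] E) l - T) v⟫_ℂ‖ := by
    rw [← norm_mul]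
    exact Complex.re_le_norm _
  rw [norm_inner_symm]
  have h4 : δ * ‖w‖ = (w * l).re - u := by
    rw [hδ]
    field_simp
  have h5 : ‖w‖ * (‖v‖ ^ 2 * δ) ≤ ‖w‖ * ‖⟪v, (algebraMap ℂ (E →L[ℂ] E) l - T) v⟫_ℂ‖ := by
    calc ‖w‖ * (‖v‖ ^ 2 * δ) = (δ * ‖w‖) * ‖v‖ ^ 2 := by ring
      _ = ((w * l).re - u) * ‖v‖ ^ 2 := by rw [h4]
      _ ≤ _ := h2.trans h3
  exact le_of_mul_le_mul_left h5 hwn

/-- The spectrum is contained in the closed convex hull of the range of the symbol. -/
theorem spectrum_subset (χ : Equiv.Perm (Fin n) →* ℤˣ) (k : Fin n → ℤ) :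
    spectrum ℂ (chiOp χ k) ⊆ closedConvexHull ℝ (symbolRange k) := by
  intro l hl
  refine mem_hull_of_form _ ?_ hl
  intro w c hc v
  exact numeric k (fun z hz => hc _ ⟨z, hz, rfl⟩) (v : H n)

/-- The range of the symbol is contained in the spectrum. -/
theorem range_subset (χ : Equiv.Perm (Fin n) →* ℤˣ) (k : Fin n → ℤ) :
    symbolRange k ⊆ spectrum ℂ (chiOp χ k) := by
  rintro _ ⟨z, hz, rfl⟩
  exact symbol_mem_spectrum χ k hz

/-- The symbol is real if the exponents with reversed signs are a rearrangement. -/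
lemma symbol_real {k : Fin n → ℤ} {σ : Equiv.Perm (Fin n)} (hσ : ∀ i, k (σ i) = - k i)
    {z : Fin n → ℂ} (hz : ∀ i, ‖z i‖ = 1) : (symbol k z).im = 0 := by
  rw [← Complex.conj_eq_iff_im]
  unfold symbol
  rw [map_mul, map_sum, map_inv₀, Complex.conj_natCast]
  congr 1
  rw [← Equiv.sum_comp (Equiv.mulLeft σ)]
  refine Finset.sum_congr rfl fun π _ => ?_
  rw [map_prod]
  refine Finset.prod_congr rfl fun i _ => ?_
  rw [conj_pow (hz i)]
  show z i ^ (- -k (σ (π i))) = z i ^ (-k (π i))
  rw [hσ, neg_neg]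

lemma isPreconnected_symbolRange (k : Fin n → ℤ) : IsPreconnected (symbolRange k) := by
  have h1 : symbolRange k = (fun θ : Fin n → ℝ => symbol k fun i => Complex.exp (θ i * Complex.I)) ''
      Set.univ := by
    ext c
    constructor
    · rintro ⟨z, hz, rfl⟩
      refine ⟨fun i => Complex.arg (z i), Set.mem_univ _, ?_⟩
      have : (fun i => Complex.exp ((Complex.arg (z i) : ℂ) * Complex.I)) = z := by
        funext i
        have := Complex.norm_mul_exp_arg_mul_I (z i)
        rwa [hz i, Complex.ofReal_one, one_mul] at this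
      simp only [this]
    · rintro ⟨θ, -, rfl⟩
      exact ⟨_, fun i => Complex.norm_exp_ofReal_mul_I _, rfl⟩
  rw [h1]
  refine isPreconnected_univ.image _ (Continuous.continuousOn ?_)
  unfold symbol
  refine continuous_const.mul (continuous_finsetSum _ fun π _ =>
    continuous_finsetProd _ fun i _ => ?_)
  refine Continuous.zpow₀ (by fun_prop) _ fun θ => Or.inl (Complex.exp_ne_zero _)

/-- A preconnected set of real numbers, seen in the complex plane, is convex. -/
lemma convex_of_real {K : Set ℂ} (h1 : IsPreconnected K) (h2 : ∀ z ∈ K, z.im = 0) :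
    Convex ℝ K := by
  have h3 : IsPreconnected (Complex.re '' K) := h1.image _ Complex.continuous_re.continuousOn
  have h4 : Convex ℝ (Complex.re '' K) := h3.ordConnected.convex
  have h5 : K = (fun x : ℝ => (x : ℂ)) '' (Complex.re '' K) := by
    ext z
    constructor
    · intro hz
      exact ⟨z.re, ⟨z, hz, rfl⟩, by apply Complex.ext <;> simp [h2 z hz]⟩
    · rintro ⟨_, ⟨w, hw, rfl⟩, rfl⟩
      have : ((w.re : ℝ) : ℂ) = w := by apply Complex.ext <;> simp [h2 w hw]
      simp only [this]
      exact hw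
  rw [h5]
  exact h4.is_linear_image (f := fun x : ℝ => (x : ℂ))
    ⟨fun x y => Complex.ofReal_add x y, fun c x => by simp⟩

/-- If the exponents with reversed signs are a rearrangement of the exponents, then the operator
is selfadjoint and its spectrum is the range of the symbol. -/
theorem spectrum_selfadjoint (χ : Equiv.Perm (Fin n) →* ℤˣ) (k : Fin n → ℤ)
    {σ : Equiv.Perm (Fin n)} (hσ : ∀ i, k (σ i) = - k i) :
    spectrum ℂ (chiOp χ k) = symbolRange k := by
  refine Set.Subset.antisymm ?_ (range_subset χ k)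
  have h1 : Convex ℝ (symbolRange k) := by
    refine convex_of_real (isPreconnected_symbolRange k) ?_
    rintro _ ⟨z, hz, rfl⟩
    exact symbol_real hσ hz
  exact (spectrum_subset χ k).trans
    (closedConvexHull_min Set.Subset.rfl h1 (isCompact_symbolRange k).isClosed)

end Pool.Agent.SymShift
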