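import Pool.Agent.SymShift.Range
import Pool.Agent.SymShift.Public

/-!
# The results in terms of the public notions
-/

namespace Pool.Agent.SymShift

open Pool.Agent

variable {n : ℕ}

theorem pub_norm (χ : Equiv.Perm (Fin n) →* ℤˣ) (k : Fin n → ℤ) :
    ‖SymShiftPublic.chiOp χ k‖ = ‖chiOp χ k‖ := rfl

theorem pub_spec (χ : Equiv.Perm (Fin n) →* ℤˣ) (k : Fin n → ℤ) :
    SymShiftPublic.spec χ k = spectrum ℂ (chiOp χ k) := rfl

theorem pub_range (k : Fin n → ℤ) : SymShiftPublic.symbolRange k = symbolRange k := rfl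

end Pool.Agent.SymShift
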